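import Pool.Agent.helper95.FJ.SpecX
import Pool.Agent.helper52.FI.GD1

/-!
# Row GDF (MP_ad8ced_nt)
-/

set_option autoImplicit false

open Finset

noncomputable section

namespace Pool.Agent.FJ

open Finset Pool.Agent.FI Pool.Agent.BP

/-- the elements used -/
private def GDF_T (u : ℕ) : Finset (ℤ × ℤ) := (FF u).filter fun z => (nn z).Prime

private theorem GDF_Gw (u : ℕ) (w : ℕ → ℝ) (h c : ℝ) (D : ℕ) :
    (Gw u w h c D : ℂ) = ∑ z ∈ GDF_T u, ((Real.log (nn z) * w (nn z) : ℝ) : ℂ) *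
      ((tn h c (yy z) : ℂ) * (if N8 z < 0 ∧ (D : ℤ) ∣ z.2 then 1 else 0)) := by
  unfold Gw GDF_T
  rw [sum_filter, sum_filter]
  push_cast
  refine sum_congr rfl fun z _ => ?_
  by_cases h2 : (nn z).Prime
  · by_cases h3 : N8 z < 0
    · by_cases h4 : (D : ℤ) ∣ z.2
      · simp [h2, h3, h4]
      · simp [h2, h3, h4]
    · simp [h2, h3]
  · simp [h2]

private theorem GDF_FE (u : ℕ) : FF u ⊆ FE u := by
  classical
  intro z hz
  have h1 := GD1_mem.1 hz
  unfold FE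
  rw [mem_filter]
  refine ⟨?_, h1.2.1.2, h1.2.2⟩
  unfold Bx
  rw [mem_product]
  have h2 := h1.1
  simp only [mem_Icc] at h2 ⊢
  push_cast
  exact h2

theorem GDF (hFEJ : FEJ_stmt) (hSCD : SCD_stmt) (hYYB : YYB_stmt) : GDF_stmt := by
  classical
  obtain ⟨C, hC, hFou⟩ := hFEJ
  obtain ⟨C₂, hC₂, hS⟩ := hSCD
  refine ⟨C * C₂, by positivity, ?_⟩
  intro d k e ψ hd he hF u w hu hw0 hw1 hwd h c hh hhc hch K hK
  have hfour := hFou h c hh hhc hch
  have hk0 : 0 < k := hF.1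
  have hK0 : (0 : ℝ) < K := by exact_mod_cast hK
  have hhK : 0 < h * K := mul_pos hh hK0
  have hlK : 0 ≤ Real.log (K : ℝ) := Real.log_natCast_nonneg K
  set α : ℕ → Fin k → ℝ := fun j t => ang (ψ t (3, 1) * (-1) ^ j) with hα
  set E : ℤ × ℤ → ℝ := fun z => C * (1 + Real.log K) / (h * K) *
    (h ^ 2 / (h ^ 2 + (yy z - c) ^ 2)) with hE
  have hE0 : ∀ z, 0 ≤ E z := fun z => by
    rw [hE]
    positivity
  set Lw : ℤ × ℤ → ℝ := fun z => Real.log (nn z) * w (nn z) with hLw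
  have hL0 : ∀ z, 0 ≤ Lw z := fun z => mul_nonneg (Real.log_natCast_nonneg _) (hw0 _)
  -- the pointwise estimate
  have hpt : ∀ z ∈ GDF_T u, Lw z ≠ 0 →
      ‖(tn h c (yy z) : ℂ) * (if N8 z < 0 ∧ ((2 ^ e * d : ℕ) : ℤ) ∣ z.2 then 1 else 0) -
        1 / (2 ^ e * k * 2 : ℂ) * ∑ j ∈ range (e + 1), ∑ t : Fin k, ∑ i ∈ range 2, (-1 : ℂ) ^ i *
          ∑ m ∈ Icc (-(K : ℤ)) K, (((1 - |(m : ℝ)| / K : ℝ) : ℂ) * ck h c (fr (α j t) m)) *
            HC (ψ t) j i (fr (α j t) m) z‖ ≤ E z := by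
    intro z hz hLz
    rw [GDF_T, mem_filter] at hz
    obtain ⟨hzF, hzp⟩ := hz
    have hFd := (GD1_mem.1 hzF).2.1
    have hy := hYYB z hFd
    have hzu : d < nn z := by
      by_contra hcon
      apply hLz
      show Real.log (nn z) * w (nn z) = 0
      rw [hwd (nn z) (by omega), mul_zero]
    have hcop : Nat.Coprime (nn z) d := by
      rw [Nat.Prime.coprime_iff_not_dvd hzp]
      intro hdv
      have := Nat.le_of_dvd hd.pos hdv
      omega
    have hN0 : N8 z ≠ 0 := by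
      intro h0
      rw [nn, h0] at hzp
      simp at hzp
      exact Nat.not_prime_zero hzp
    have hind := GD1_ind hd he hF z hcop hN0
    set D : ℕ → Fin k → ℂ := fun j t => (tn h c (yy z) : ℂ) -
      ∑ m ∈ Icc (-(K : ℤ)) K, ((1 - |(m : ℝ)| / K : ℝ) : ℂ) * ck h c (fr (α j t) m) *
        Complex.exp (fr (α j t) m * yy z * Complex.I) with hD
    have hDle : ∀ j t, ‖D j t‖ ≤ E z := by
      intro j t
      exact hfour (α j t) (GD1_ang _).1 (GD1_ang _).2 K hK (yy z) hy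
    have hinner : ∀ j t i, ∑ m ∈ Icc (-(K : ℤ)) K,
        (((1 - |(m : ℝ)| / K : ℝ) : ℂ) * ck h c (fr (α j t) m)) * HC (ψ t) j i (fr (α j t) m) z =
        (ψ t z * (-1) ^ (j * z.2.natAbs) * ((N8 z).sign : ℂ) ^ i) *
          ((tn h c (yy z) : ℂ) - D j t) := by
      intro j t i
      simp only [hD, sub_sub_cancel, mul_sum]
      refine sum_congr rfl fun m _ => ?_
      unfold HC
      ring
    have hmain : (tn h c (yy z) : ℂ) * (if N8 z < 0 ∧ ((2 ^ e * d : ℕ) : ℤ) ∣ z.2 then 1 else 0) -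
        1 / (2 ^ e * k * 2 : ℂ) * ∑ j ∈ range (e + 1), ∑ t : Fin k, ∑ i ∈ range 2, (-1 : ℂ) ^ i *
          ∑ m ∈ Icc (-(K : ℤ)) K, (((1 - |(m : ℝ)| / K : ℝ) : ℂ) * ck h c (fr (α j t) m)) *
            HC (ψ t) j i (fr (α j t) m) z =
        1 / (2 ^ e * k * 2 : ℂ) * ∑ j ∈ range (e + 1), ∑ t : Fin k, ∑ i ∈ range 2,
          (-1 : ℂ) ^ i * (ψ t z * (-1) ^ (j * z.2.natAbs) * ((N8 z).sign : ℂ) ^ i) * D j t := by
      rw [← hind]
      simp only [hinner]
      simp only [mul_sum]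
      rw [← sum_sub_distrib]
      refine sum_congr rfl fun j _ => ?_
      rw [← sum_sub_distrib]
      refine sum_congr rfl fun t _ => ?_
      rw [← sum_sub_distrib]
      refine sum_congr rfl fun i _ => ?_
      ring
    rw [hmain, norm_mul]
    have hterm : ∀ j t i, ‖(-1 : ℂ) ^ i * (ψ t z * (-1) ^ (j * z.2.natAbs) *
        ((N8 z).sign : ℂ) ^ i) * D j t‖ ≤ E z := by
      intro j t i
      have hψ : ‖ψ t z‖ = 1 := (hF.2.1 t).2.2.2.1 z hcop
      have hs : ‖((N8 z).sign : ℂ)‖ = 1 := by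
        rcases lt_or_gt_of_ne hN0 with h1 | h1
        · rw [Int.sign_eq_neg_one_of_neg h1]
          simp
        · rw [Int.sign_eq_one_of_pos h1]
          simp
      rw [norm_mul, norm_mul, norm_mul, norm_mul, norm_pow, norm_pow, norm_pow, hψ, hs]
      simp only [norm_neg, norm_one, one_pow, mul_one, one_mul]
      exact hDle j t
    have hsum : ‖∑ j ∈ range (e + 1), ∑ t : Fin k, ∑ i ∈ range 2,
        (-1 : ℂ) ^ i * (ψ t z * (-1) ^ (j * z.2.natAbs) * ((N8 z).sign : ℂ) ^ i) * D j t‖ ≤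
        (e + 1) * (k * (2 * E z)) := by
      refine (norm_sum_le _ _).trans ?_
      refine (sum_le_sum fun j _ => (norm_sum_le _ _).trans (sum_le_sum fun t _ =>
        (norm_sum_le _ _).trans (sum_le_sum fun i _ => hterm j t i))).trans ?_
      simp only [sum_const, card_range, card_univ, Fintype.card_fin, nsmul_eq_mul]
      push_cast
      exact le_rfl
    have hnorm : ‖(1 / (2 ^ e * k * 2 : ℂ))‖ = 1 / (2 ^ e * k * 2 : ℝ) := by
      rw [norm_div, norm_one, norm_mul, norm_mul, norm_pow, Complex.norm_natCast]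
      simp
    rw [hnorm]
    have hk0' : (0 : ℝ) < k := by exact_mod_cast hk0
    have hee : ((e : ℝ) + 1) = 2 ^ e := by
      rcases Nat.le_one_iff_eq_zero_or_eq_one.1 he with rfl | rfl
      · norm_num
      · norm_num
    calc 1 / (2 ^ e * k * 2 : ℝ) * ‖∑ j ∈ range (e + 1), ∑ t : Fin k, ∑ i ∈ range 2,
        (-1 : ℂ) ^ i * (ψ t z * (-1) ^ (j * z.2.natAbs) * ((N8 z).sign : ℂ) ^ i) * D j t‖
        ≤ 1 / (2 ^ e * k * 2 : ℝ) * ((e + 1) * (k * (2 * E z))) :=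
          mul_le_mul_of_nonneg_left hsum (by positivity)
      _ = E z := by
          rw [hee]
          field_simp
  -- assembly
  have hbig : 1 / (2 ^ e * k * 2 : ℂ) * ∑ j ∈ range (e + 1), ∑ t : Fin k, ∑ i ∈ range 2, (-1 : ℂ) ^ i *
      ∑ m ∈ Icc (-(K : ℤ)) K, ((1 - |(m : ℝ)| / K : ℝ) : ℂ) * ck h c (fr (α j t) m) *
        PW u w (HC (ψ t) j i (fr (α j t) m)) =
      ∑ z ∈ GDF_T u, ((Real.log (nn z) * w (nn z) : ℝ) : ℂ) * (1 / (2 ^ e * k * 2 : ℂ) *
        ∑ j ∈ range (e + 1), ∑ t : Fin k, ∑ i ∈ range 2, (-1 : ℂ) ^ i *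
          ∑ m ∈ Icc (-(K : ℤ)) K, (((1 - |(m : ℝ)| / K : ℝ) : ℂ) * ck h c (fr (α j t) m)) *
            HC (ψ t) j i (fr (α j t) m) z) := by
    unfold PW
    exact GD1_swap (GDF_T u) (range (e + 1)) (range 2) k (Icc (-(K : ℤ)) K)
      (1 / (2 ^ e * k * 2 : ℂ)) (fun i => (-1 : ℂ) ^ i)
      (fun j t m => ((1 - |(m : ℝ)| / K : ℝ) : ℂ) * ck h c (fr (α j t) m))
      (fun z => ((Real.log (nn z) * w (nn z) : ℝ) : ℂ))
      (fun j t i m z => HC (ψ t) j i (fr (α j t) m) z)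
  have hfin : ‖(Gw u w h c (2 ^ e * d) : ℂ) - 1 / (2 ^ e * k * 2 : ℂ) * ∑ j ∈ range (e + 1),
      ∑ t : Fin k, ∑ i ∈ range 2, (-1 : ℂ) ^ i * ∑ m ∈ Icc (-(K : ℤ)) K,
        ((1 - |(m : ℝ)| / K : ℝ) : ℂ) * ck h c (fr (α j t) m) *
        PW u w (HC (ψ t) j i (fr (α j t) m))‖ ≤
      C * C₂ * (1 + Real.log K) / (h * K) * (Real.log u * (h * u + √u)) := by
    rw [hbig, GDF_Gw, ← sum_sub_distrib]
    refine (norm_sum_le _ _).trans ?_
    have hu0 : (1 : ℕ) ≤ u := by omega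
    have hlu : 0 ≤ Real.log (u : ℝ) := Real.log_natCast_nonneg u
    have hone : ∀ z ∈ GDF_T u, ‖((Real.log (nn z) * w (nn z) : ℝ) : ℂ) *
          ((tn h c (yy z) : ℂ) * (if N8 z < 0 ∧ ((2 ^ e * d : ℕ) : ℤ) ∣ z.2 then 1 else 0)) -
        ((Real.log (nn z) * w (nn z) : ℝ) : ℂ) * (1 / (2 ^ e * k * 2 : ℂ) *
        ∑ j ∈ range (e + 1), ∑ t : Fin k, ∑ i ∈ range 2, (-1 : ℂ) ^ i *
          ∑ m ∈ Icc (-(K : ℤ)) K, (((1 - |(m : ℝ)| / K : ℝ) : ℂ) * ck h c (fr (α j t) m)) *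
            HC (ψ t) j i (fr (α j t) m) z)‖ ≤ Real.log u * E z := by
      intro z hz
      rw [← mul_sub, norm_mul, Complex.norm_real, Real.norm_of_nonneg (hL0 z)]
      by_cases hLz : Lw z = 0
      · rw [hLz, zero_mul]
        exact mul_nonneg hlu (hE0 z)
      · have h1 : Real.log (nn z) * w (nn z) ≤ Real.log u := by
          have hz' := hz
          rw [GDF_T, mem_filter] at hz'
          have h2 := (GD1_mem.1 hz'.1).2.2
          have h3 : Real.log (nn z) ≤ Real.log u :=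
            Real.log_le_log (by exact_mod_cast hz'.2.pos) (by exact_mod_cast h2)
          calc Real.log (nn z) * w (nn z) ≤ Real.log (nn z) * 1 :=
                mul_le_mul_of_nonneg_left (hw1 _) (Real.log_natCast_nonneg _)
            _ ≤ Real.log u := by rw [mul_one]; exact h3
        exact mul_le_mul h1 (hpt z hz hLz) (norm_nonneg _) hlu
    refine (sum_le_sum hone).trans ?_
    rw [← mul_sum]
    have hsub : GDF_T u ⊆ FE u := (filter_subset _ _).trans (GDF_FE u)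
    have h1 : ∑ z ∈ GDF_T u, E z ≤ ∑ z ∈ FE u, E z :=
      sum_le_sum_of_subset_of_nonneg hsub fun z _ _ => hE0 z
    have h2 : ∑ z ∈ FE u, E z = C * (1 + Real.log K) / (h * K) *
        ∑ z ∈ FE u, h ^ 2 / (h ^ 2 + (yy z - c) ^ 2) := by
      rw [hE, mul_sum]
    have h3 := hS u c h hu0 hh
    have h4 : 0 ≤ C * (1 + Real.log K) / (h * K) := by positivity
    calc Real.log u * ∑ z ∈ GDF_T u, E z
        ≤ Real.log u * (C * (1 + Real.log K) / (h * K) * (C₂ * (h * u + √u))) := by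
          refine mul_le_mul_of_nonneg_left ?_ hlu
          rw [h2] at h1
          exact h1.trans (mul_le_mul_of_nonneg_left h3 h4)
      _ = _ := by ring
  exact hfin

end Pool.Agent.FJ
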