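import Pool.Agent.helper95.FJ.SpecX
import Pool.Agent.helper52.FI.GD1

/-!
# Row GDS (MP_ad8ced_nt)
-/

set_option autoImplicit false

open Finset

noncomputable section

namespace Pool.Agent.FJ

open Finset Pool.Agent.FI Pool.Agent.BP

private theorem GDS_lep : 1 ≤ lep := by
  unfold lep
  rw [Real.le_log_iff_exp_le (by positivity)]
  have h1 := Real.exp_one_lt_d9
  have h2 : 0 ≤ √(8 : ℝ) := Real.sqrt_nonneg _
  linarith

private theorem GDS_gg (p : ℕ) (hp : p.Prime) : 0 ≤ gg p ∧ gg p ≤ 1 := by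
  have h2 : (2 : ℝ) ≤ p := by exact_mod_cast hp.two_le
  have h : ch8 p ≤ 1 := by
    unfold ch8
    split_ifs <;> norm_num
  have h3 : 1 ≤ (p : ℝ) - ch8 p := by linarith
  unfold gg
  constructor
  · exact div_nonneg (by norm_num) (by linarith)
  · rw [div_le_one (by linarith)]
    exact h3

private theorem GDS_P (d : ℕ) : 0 ≤ ∏ p ∈ d.primeFactors, gg p ∧ ∏ p ∈ d.primeFactors, gg p ≤ 1 := by
  constructor
  · exact prod_nonneg fun p hp => (GDS_gg p (Nat.prime_of_mem_primeFactors hp)).1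
  · exact prod_le_one (fun p hp => (GDS_gg p (Nat.prime_of_mem_primeFactors hp)).1)
      fun p hp => (GDS_gg p (Nat.prime_of_mem_primeFactors hp)).2

/-- the elements used -/
private def GDS_T (X d : ℕ) : Finset (ℤ × ℤ) :=
  (FF X).filter fun z => (nn z).Prime ∧ N8 z < 0 ∧ (d : ℤ) ∣ z.2

private theorem GDS_D (X d : ℕ) (h c δ : ℝ) (S : Finset ℤ) :
    ∑ k ∈ S, Gw X (tl (k * δ) δ) h c d = ∑ z ∈ GDS_T X d, Real.log (nn z) * tn h c (yy z) *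
      ∑ k ∈ S, Pool.Agent.SK.tr0 (k * δ) δ (Real.log (nn z)) := by
  unfold Gw GDS_T
  rw [sum_comm]
  refine sum_congr rfl fun z _ => ?_
  rw [mul_sum]
  refine sum_congr rfl fun k _ => ?_
  unfold tl
  ring

private theorem GDS_Gd (u₁ u₂ X d : ℕ) (h c : ℝ) (h1 : 1 ≤ u₁) (hu : u₁ ≤ u₂) (hX : u₂ ≤ X) :
    Gd u₁ u₂ h c d = ∑ z ∈ GDS_T X d, Real.log (nn z) * tn h c (yy z) *
      (if Real.log u₁ < Real.log (nn z) ∧ Real.log (nn z) ≤ Real.log u₂ then 1 else 0) := by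
  have e1 : (FF u₂).filter (fun z => u₁ < nn z ∧ (nn z).Prime ∧ N8 z < 0 ∧ (d : ℤ) ∣ z.2) =
      (GDS_T X d).filter (fun z => Real.log u₁ < Real.log (nn z) ∧
        Real.log (nn z) ≤ Real.log u₂) := by
    ext z
    unfold GDS_T
    rw [mem_filter, mem_filter, mem_filter]
    have hu1 : (0 : ℝ) < u₁ := by exact_mod_cast h1
    have hu2 : (0 : ℝ) < u₂ := by exact_mod_cast (h1.trans hu)
    constructor
    · rintro ⟨hz, a1, a2, a3, a4⟩
      have hm := GD1_mem.1 hz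
      have hn : (0 : ℝ) < (nn z : ℕ) := by exact_mod_cast a2.pos
      refine ⟨⟨GD1_box hm.2.1 (hm.2.2.trans hX), a2, a3, a4⟩, ?_, ?_⟩
      · exact Real.log_lt_log hu1 (by exact_mod_cast a1)
      · exact Real.log_le_log hn (by exact_mod_cast hm.2.2)
    · rintro ⟨⟨hz, a2, a3, a4⟩, b1, b2⟩
      have hm := GD1_mem.1 hz
      have hn : (0 : ℝ) < (nn z : ℕ) := by exact_mod_cast a2.pos
      have b3 : u₁ < nn z := by
        have := (Real.log_lt_log_iff hu1 hn).1 b1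
        exact_mod_cast this
      have b4 : nn z ≤ u₂ := by
        have := (Real.log_le_log_iff hn hu2).1 b2
        exact_mod_cast this
      exact ⟨GD1_box hm.2.1 b4, b3, a2, a3, a4⟩
  unfold Gd
  rw [e1, sum_filter]
  refine sum_congr rfl fun z _ => ?_
  split_ifs
  · rw [mul_one]
  · rw [mul_zero]

private theorem GDS_tn (h c y : ℝ) : 0 ≤ tn h c y := le_max_left _ _

/-- count, from above -/
private theorem GDS_up (X : ℕ) (a b δ : ℝ) (S : Finset ℤ)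
    (hS : ∀ y : ℝ, ∑ k ∈ S, Pool.Agent.SK.tr0 (k * δ) δ y ≤
      if a - 2 * δ < y ∧ y < b + 2 * δ then 1 else 0) (hab : a - 2 * δ ≤ b + 2 * δ) :
    ∑ k ∈ S, ∑ n ∈ Ioc 0 X, tl (k * δ) δ n ≤ Real.exp (b + 2 * δ) - Real.exp (a - 2 * δ) + 1 := by
  rw [sum_comm]
  have h1 : ∑ n ∈ Ioc 0 X, ∑ k ∈ S, tl (k * δ) δ n ≤
      ∑ n ∈ Ioc 0 X, if n ∈ Ioc ⌊Real.exp (a - 2 * δ)⌋₊ ⌊Real.exp (b + 2 * δ)⌋₊ then (1 : ℝ) else 0 := by
    refine sum_le_sum fun n hn => ?_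
    rw [mem_Ioc] at hn
    have hn0 : (0 : ℝ) < n := by exact_mod_cast hn.1
    refine (hS (Real.log n)).trans ?_
    by_cases hc : a - 2 * δ < Real.log n ∧ Real.log n < b + 2 * δ
    · rw [if_pos hc, if_pos]
      rw [mem_Ioc]
      constructor
      · rw [Nat.floor_lt (Real.exp_pos _).le]
        exact (Real.lt_log_iff_exp_lt hn0).1 hc.1
      · exact Nat.le_floor ((Real.log_lt_iff_lt_exp hn0).1 hc.2).le
    · rw [if_neg hc]
      split_ifs <;> norm_num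
  refine h1.trans ?_
  rw [← sum_filter, sum_const, nsmul_eq_mul, mul_one]
  have h2 : #((Ioc 0 X).filter fun n => n ∈ Ioc ⌊Real.exp (a - 2 * δ)⌋₊ ⌊Real.exp (b + 2 * δ)⌋₊) ≤
      #(Ioc ⌊Real.exp (a - 2 * δ)⌋₊ ⌊Real.exp (b + 2 * δ)⌋₊) := by
    refine card_le_card fun n hn => ?_
    exact (mem_filter.1 hn).2
  rw [Nat.card_Ioc] at h2
  have h3 : ⌊Real.exp (a - 2 * δ)⌋₊ ≤ ⌊Real.exp (b + 2 * δ)⌋₊ :=
    Nat.floor_le_floor (Real.exp_le_exp.2 hab)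
  have h4 : ((⌊Real.exp (b + 2 * δ)⌋₊ - ⌊Real.exp (a - 2 * δ)⌋₊ : ℕ) : ℝ) =
      (⌊Real.exp (b + 2 * δ)⌋₊ : ℝ) - ⌊Real.exp (a - 2 * δ)⌋₊ := Nat.cast_sub h3
  have h5 := Nat.floor_le (Real.exp_pos (b + 2 * δ)).le
  have h6 := Nat.lt_floor_add_one (Real.exp (a - 2 * δ))
  have h7 : (#((Ioc 0 X).filter fun n => n ∈ Ioc ⌊Real.exp (a - 2 * δ)⌋₊ ⌊Real.exp (b + 2 * δ)⌋₊) : ℝ) ≤
      ((⌊Real.exp (b + 2 * δ)⌋₊ - ⌊Real.exp (a - 2 * δ)⌋₊ : ℕ) : ℝ) := by exact_mod_cast h2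
  rw [h4] at h7
  linarith

/-- count, from below -/
private theorem GDS_lo (X : ℕ) (a b δ : ℝ) (S : Finset ℤ) (hδ : 0 < δ) (hbX : Real.exp b ≤ X)
    (hS0 : ∀ n : ℕ, ∀ k ∈ S, 0 ≤ tl (k * δ) δ n)
    (hS : ∀ y : ℝ, (if a + 2 * δ ≤ y ∧ y ≤ b - 2 * δ then 1 else 0) ≤
      ∑ k ∈ S, Pool.Agent.SK.tr0 (k * δ) δ y) :
    Real.exp (b - 2 * δ) - Real.exp (a + 2 * δ) - 1 ≤ ∑ k ∈ S, ∑ n ∈ Ioc 0 X, tl (k * δ) δ n := by
  rw [sum_comm]
  have h1 : ∑ n ∈ Ioc ⌊Real.exp (a + 2 * δ)⌋₊ ⌊Real.exp (b - 2 * δ)⌋₊, (1 : ℝ) ≤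
      ∑ n ∈ Ioc 0 X, ∑ k ∈ S, tl (k * δ) δ n := by
    have hsub : Ioc ⌊Real.exp (a + 2 * δ)⌋₊ ⌊Real.exp (b - 2 * δ)⌋₊ ⊆ Ioc 0 X := by
      intro n hn
      rw [mem_Ioc] at hn ⊢
      refine ⟨by omega, ?_⟩
      have h2 : ⌊Real.exp (b - 2 * δ)⌋₊ ≤ X := by
        refine Nat.floor_le_of_le (le_trans ?_ hbX)
        exact Real.exp_le_exp.2 (by linarith)
      omega
    refine le_trans (sum_le_sum (g := fun n => ∑ k ∈ S, tl (k * δ) δ n) ?_)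
      (sum_le_sum_of_subset_of_nonneg hsub fun n _ _ => sum_nonneg fun k hk => hS0 n k hk)
    intro n hn
    rw [mem_Ioc] at hn
    have hn0 : (0 : ℝ) < n := by
      have : 0 < n := by omega
      exact_mod_cast this
    have h3 : a + 2 * δ ≤ Real.log n ∧ Real.log n ≤ b - 2 * δ := by
      constructor
      · rw [Real.le_log_iff_exp_le hn0]
        exact ((Nat.floor_lt (Real.exp_pos _).le).1 hn.1).le
      · rw [Real.log_le_iff_le_exp hn0]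
        exact (Nat.le_floor_iff (Real.exp_pos _).le).1 hn.2
    have h4 := hS (Real.log n)
    rw [if_pos h3] at h4
    exact h4
  refine le_trans ?_ h1
  rw [sum_const, nsmul_eq_mul, mul_one, Nat.card_Ioc]
  have h5 := Nat.floor_le (Real.exp_pos (a + 2 * δ)).le
  have h6 := Nat.lt_floor_add_one (Real.exp (b - 2 * δ))
  have h7 : (⌊Real.exp (b - 2 * δ)⌋₊ : ℝ) - ⌊Real.exp (a + 2 * δ)⌋₊ ≤
      ((⌊Real.exp (b - 2 * δ)⌋₊ - ⌊Real.exp (a + 2 * δ)⌋₊ : ℕ) : ℝ) := by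
    rw [sub_le_iff_le_add]
    have : ⌊Real.exp (b - 2 * δ)⌋₊ ≤
        (⌊Real.exp (b - 2 * δ)⌋₊ - ⌊Real.exp (a + 2 * δ)⌋₊) + ⌊Real.exp (a + 2 * δ)⌋₊ := by omega
    exact_mod_cast this
  linarith

private theorem GDS_exp (δ : ℝ) (h0 : 0 ≤ δ) (h1 : δ ≤ 1 / 2) :
    Real.exp (2 * δ) ≤ 1 + 4 * δ ∧ 1 - 2 * δ ≤ Real.exp (-(2 * δ)) := by
  constructor
  · have h2 : |2 * δ| ≤ 1 := by rw [abs_of_nonneg (by linarith)]; linarith
    have h3 := Real.abs_exp_sub_one_le h2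
    rw [abs_of_nonneg (by linarith : 0 ≤ 2 * δ)] at h3
    have h4 := (abs_le.1 h3).2
    linarith
  · have := Real.add_one_le_exp (-(2 * δ))
    linarith

/-- **GDS** -/
theorem GDS (hGDT : GDT_stmt) (hTNP : TNP_stmt) (hSIZ : SIZ_stmt) : GDS_stmt := by
  intro η hη B
  obtain ⟨x₁, hD⟩ := hGDT η hη (2 * B + 8) (B + 4)
  have hlim : Filter.Tendsto (fun x : ℕ => Real.log (x : ℝ)) Filter.atTop Filter.atTop :=
    Real.tendsto_log_atTop.comp tendsto_natCast_atTop_atTop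
  have hlog : ∀ᶠ x : ℕ in Filter.atTop, Real.log (x : ℝ) ^ (B + 4) ≤ x := by
    have h1 := (Real.isLittleO_pow_log_id_atTop (n := B + 4)).bound (c := 1) one_pos
    have h2 := tendsto_natCast_atTop_atTop.eventually h1
    filter_upwards [h2, hlim.eventually_ge_atTop 0] with x hx hx0
    simp only [id_eq, one_mul, Real.norm_eq_abs] at hx
    rw [abs_of_nonneg (by positivity), abs_of_nonneg (Nat.cast_nonneg x)] at hx
    exact hx
  obtain ⟨x₂, hx₂⟩ := Filter.eventually_atTop.1 ((hlim.eventually_ge_atTop 5).and hlog)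
  refine ⟨max x₁ (max x₂ 2), ?_⟩
  intro x hx d hd hdB u₁ u₂ hu1 hu hu2 h c hh hhc hc1
  have hxx₁ : x₁ ≤ x := (le_max_left _ _).trans hx
  have hxx₂ : x₂ ≤ x := ((le_max_left _ _).trans (le_max_right _ _)).trans hx
  have hx2 : 2 ≤ x := ((le_max_right _ _).trans (le_max_right _ _)).trans hx
  obtain ⟨hL, hLx⟩ := hx₂ x hxx₂
  have hDx := hD x hxx₁ d hd
  obtain ⟨L, hLdef⟩ : ∃ L : ℝ, L = Real.log x := ⟨_, rfl⟩
  rw [← hLdef] at hL hLx hdB hDx ⊢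
  have hL0 : 0 < L := by linarith
  have hL1 : 1 ≤ L := by linarith
  have hxR : (2 : ℝ) ≤ x := by exact_mod_cast hx2
  have hx0 : (0 : ℝ) < x := by linarith
  have hxp : (0 : ℝ) < (x : ℝ) ^ (-(1 / 3) + η) := Real.rpow_pos_of_pos hx0 _
  have hh0 : 0 < h := hxp.trans_le hh
  have hlep := GDS_lep
  -- the width
  obtain ⟨δ, hδ⟩ : ∃ δ : ℝ, δ = 1 / L ^ (B + 4) := ⟨_, rfl⟩
  have hLE : 5 ≤ L ^ (B + 4) := by
    have h1 := pow_le_pow_right₀ hL1 (by omega : 1 ≤ B + 4)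
    rw [pow_one] at h1
    linarith
  have hLE0 : 0 < L ^ (B + 4) := by linarith
  have hδ0 : 0 < δ := by rw [hδ]; positivity
  have hδ5 : δ ≤ 1 / 5 := by
    rw [hδ]
    exact one_div_le_one_div_of_le (by norm_num) hLE
  have hδL : δ * L ^ (B + 4) = 1 := by
    rw [hδ]
    field_simp
  have hδx : 1 ≤ δ * x ^ 2 := by
    rw [← hδL]
    refine mul_le_mul_of_nonneg_left ?_ hδ0.le
    nlinarith
  -- the end points
  have hu1r : 2 * (x : ℝ) ^ 2 ≤ u₁ := by exact_mod_cast hu1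
  have hu2r : (u₂ : ℝ) ≤ 32 * (x : ℝ) ^ 2 := by exact_mod_cast hu2
  have hur : (u₁ : ℝ) ≤ u₂ := by exact_mod_cast hu
  have hxx : 0 < (x : ℝ) ^ 2 := by positivity
  have hu1p : (0 : ℝ) < u₁ := by linarith
  have hu2p : (0 : ℝ) < u₂ := by linarith
  obtain ⟨a, ha⟩ : ∃ a : ℝ, a = Real.log u₁ := ⟨_, rfl⟩
  obtain ⟨b, hb⟩ : ∃ b : ℝ, b = Real.log u₂ := ⟨_, rfl⟩
  have hexa : Real.exp a = u₁ := by rw [ha]; exact Real.exp_log hu1p
  have hexb : Real.exp b = u₂ := by rw [hb]; exact Real.exp_log hu2p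
  have hab : a ≤ b := by
    rw [ha, hb]
    exact Real.log_le_log hu1p hur
  have hl2a := Real.log_two_gt_d9
  have hl2b := Real.log_two_lt_d9
  have hlx2 : Real.log ((x : ℝ) ^ 2) = 2 * L := by
    rw [Real.log_pow, ← hLdef]
    norm_num
  have ha1 : Real.log 2 + 2 * L ≤ a := by
    rw [ha, ← hlx2, ← Real.log_mul (by norm_num) hxx.ne']
    exact Real.log_le_log (by positivity) hu1r
  have hb1 : b ≤ 5 * Real.log 2 + 2 * L := by
    have h1 : 5 * Real.log 2 = Real.log 32 := by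
      rw [show (32 : ℝ) = 2 ^ 5 by norm_num, Real.log_pow]
      norm_num
    rw [hb, ← hlx2, h1, ← Real.log_mul (by norm_num) hxx.ne']
    exact Real.log_le_log hu2p hu2r
  have h64 : Real.log (64 * (x : ℝ) ^ 2) = 6 * Real.log 2 + 2 * L := by
    rw [Real.log_mul (by norm_num) hxx.ne', hlx2, show (64 : ℝ) = 2 ^ 6 by norm_num, Real.log_pow]
    norm_num
  obtain ⟨S₀, S₁, ⟨hc0, hc1'⟩, hrange, hy⟩ := hTNP a b δ hab hδ0
  obtain ⟨P, hP⟩ : ∃ P : ℝ, P = ∏ p ∈ d.primeFactors, gg p := ⟨_, rfl⟩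
  obtain ⟨hP0, hP1⟩ := GDS_P d
  rw [← hP] at hP0 hP1 hDx ⊢
  obtain ⟨q, hq⟩ : ∃ q : ℝ, q = P / (4 * lep) := ⟨_, rfl⟩
  have hq0 : 0 ≤ q := by rw [hq]; positivity
  have hq1 : q ≤ 1 := by
    rw [hq, div_le_one (by linarith)]
    linarith
  -- one tent
  have htent : ∀ k : ℤ, k ∈ S₀ ∨ k ∈ S₁ → |Gw (64 * x ^ 2) (tl (k * δ) δ) h c d -
      q * h * ∑ n ∈ Ioc 0 (64 * x ^ 2), tl (k * δ) δ n| ≤ h * x ^ 2 / L ^ (2 * B + 8) := by
    intro k hk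
    obtain ⟨r1, r2⟩ := hrange k hk
    have h1 := hDx (hdB.trans (pow_le_pow_right₀ hL1 (by omega))) (k * δ) δ (by rw [hδ])
      (by linarith) (by linarith) (by rw [h64]; linarith) h c hh hhc hc1
    have e1 : P * (h * (∑ n ∈ Ioc 0 (64 * x ^ 2), tl (k * δ) δ n) / (4 * lep)) =
        q * h * ∑ n ∈ Ioc 0 (64 * x ^ 2), tl (k * δ) δ n := by
      rw [hq]
      ring
    rw [e1] at h1
    exact h1
  have hsum : ∀ S : Finset ℤ, (∀ k ∈ S, k ∈ S₀ ∨ k ∈ S₁) → (#S : ℝ) ≤ (b - a) / δ + 5 →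
      |∑ k ∈ S, Gw (64 * x ^ 2) (tl (k * δ) δ) h c d -
        q * h * ∑ k ∈ S, ∑ n ∈ Ioc 0 (64 * x ^ 2), tl (k * δ) δ n| ≤ 8 * (h * x ^ 2 * δ) := by
    intro S hS hcard
    rw [mul_sum, ← sum_sub_distrib]
    refine (abs_sum_le_sum_abs _ _).trans ((sum_le_sum fun k hk => htent k (hS k hk)).trans ?_)
    rw [sum_const, nsmul_eq_mul]
    have h1 : (#S : ℝ) ≤ 8 * L ^ (B + 4) := by
      have h2 : (b - a) / δ = (b - a) * L ^ (B + 4) := by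
        rw [hδ]
        field_simp
      rw [h2] at hcard
      have h3 : b - a ≤ 3 := by linarith
      have h4 := mul_le_mul_of_nonneg_right h3 hLE0.le
      linarith
    have h5 : L ^ (2 * B + 8) = L ^ (B + 4) * L ^ (B + 4) := by
      rw [← pow_add]
      congr 1
      ring
    have h6 : h * x ^ 2 / L ^ (2 * B + 8) = h * x ^ 2 * δ / L ^ (B + 4) := by
      rw [hδ, h5]
      field_simp
    rw [h6]
    calc (#S : ℝ) * (h * x ^ 2 * δ / L ^ (B + 4)) ≤ 8 * L ^ (B + 4) * (h * x ^ 2 * δ / L ^ (B + 4)) :=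
          mul_le_mul_of_nonneg_right h1 (by positivity)
      _ = 8 * (h * x ^ 2 * δ) := by field_simp
  have hs0 := hsum S₀ (fun k hk => Or.inl hk) hc0
  have hs1 := hsum S₁ (fun k hk => Or.inr hk) hc1'
  -- the sums of the weights
  obtain ⟨ex1, ex2⟩ := GDS_exp δ hδ0.le (by linarith)
  have hT1 : ∑ k ∈ S₁, ∑ n ∈ Ioc 0 (64 * x ^ 2), tl (k * δ) δ n ≤
      ((u₂ : ℝ) - u₁) + 193 * (δ * x ^ 2) := by
    have h1 := GDS_up (64 * x ^ 2) a b δ S₁ (fun y => (hy y).2.2.2) (by linarith)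
    have h2 : Real.exp (b + 2 * δ) ≤ u₂ * (1 + 4 * δ) := by
      rw [Real.exp_add, hexb]
      exact mul_le_mul_of_nonneg_left ex1 hu2p.le
    have h3 : u₁ * (1 - 2 * δ) ≤ Real.exp (a - 2 * δ) := by
      rw [sub_eq_add_neg a, Real.exp_add, hexa]
      exact mul_le_mul_of_nonneg_left ex2 hu1p.le
    have h4 : δ * u₂ ≤ δ * (32 * x ^ 2) := mul_le_mul_of_nonneg_left hu2r hδ0.le
    have h5 : δ * u₁ ≤ δ * (32 * x ^ 2) := mul_le_mul_of_nonneg_left (hur.trans hu2r) hδ0.le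
    linarith
  have hT0 : ((u₂ : ℝ) - u₁) - 193 * (δ * x ^ 2) ≤
      ∑ k ∈ S₀, ∑ n ∈ Ioc 0 (64 * x ^ 2), tl (k * δ) δ n := by
    have h1 := GDS_lo (64 * x ^ 2) a b δ S₀ hδ0 (by
      rw [hexb]
      push_cast
      linarith) (fun n k _ => by unfold tl Pool.Agent.SK.tr0; exact le_max_left _ _)
      (fun y => (hy y).2.2.1)
    have h2 : Real.exp (a + 2 * δ) ≤ u₁ * (1 + 4 * δ) := by
      rw [Real.exp_add, hexa]
      exact mul_le_mul_of_nonneg_left ex1 hu1p.le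
    have h3 : u₂ * (1 - 2 * δ) ≤ Real.exp (b - 2 * δ) := by
      rw [sub_eq_add_neg b, Real.exp_add, hexb]
      exact mul_le_mul_of_nonneg_left ex2 hu2p.le
    have h4 : δ * u₂ ≤ δ * (32 * x ^ 2) := mul_le_mul_of_nonneg_left hu2r hδ0.le
    have h5 : δ * u₁ ≤ δ * (32 * x ^ 2) := mul_le_mul_of_nonneg_left (hur.trans hu2r) hδ0.le
    linarith
  -- comparison
  have hu1n : 1 ≤ u₁ := by
    have : 0 < x ^ 2 := by positivity
    omega
  have hX : u₂ ≤ 64 * x ^ 2 := by omega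
  have hGd := GDS_Gd u₁ u₂ (64 * x ^ 2) d h c hu1n hu hX
  rw [← ha, ← hb] at hGd
  have hlow : ∑ k ∈ S₀, Gw (64 * x ^ 2) (tl (k * δ) δ) h c d ≤ Gd u₁ u₂ h c d := by
    rw [GDS_D, hGd]
    refine sum_le_sum fun z _ => ?_
    exact mul_le_mul_of_nonneg_left (hy _).1
      (mul_nonneg (Real.log_natCast_nonneg _) (GDS_tn _ _ _))
  have hupp : Gd u₁ u₂ h c d ≤ ∑ k ∈ S₁, Gw (64 * x ^ 2) (tl (k * δ) δ) h c d := by
    rw [GDS_D, hGd]
    refine sum_le_sum fun z _ => ?_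
    exact mul_le_mul_of_nonneg_left (hy _).2.1
      (mul_nonneg (Real.log_natCast_nonneg _) (GDS_tn _ _ _))
  have hqh0 : 0 ≤ q * h := mul_nonneg hq0 hh0.le
  have hqh1 : q * h ≤ h := mul_le_of_le_one_left hh0.le hq1
  have m1 := mul_le_mul_of_nonneg_left hT1 hqh0
  have m0 := mul_le_mul_of_nonneg_left hT0 hqh0
  have hdx0 : 0 ≤ 193 * (δ * (x : ℝ) ^ 2) := by positivity
  have m2 : q * h * (193 * (δ * x ^ 2)) ≤ h * (193 * (δ * x ^ 2)) :=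
    mul_le_mul_of_nonneg_right hqh1 hdx0
  rw [mul_add] at m1
  rw [mul_sub] at m0
  have emain : P * (h * ((u₂ : ℝ) - u₁) / (4 * lep)) = q * h * ((u₂ : ℝ) - u₁) := by
    rw [hq]
    ring
  rw [emain]
  obtain ⟨s0a, s0b⟩ := abs_le.1 hs0
  obtain ⟨s1a, s1b⟩ := abs_le.1 hs1
  have hfin : |Gd u₁ u₂ h c d - q * h * ((u₂ : ℝ) - u₁)| ≤ 201 * (h * x ^ 2 * δ) := by
    rw [abs_le]
    constructor
    · have e : h * (193 * (δ * (x : ℝ) ^ 2)) = 193 * (h * x ^ 2 * δ) := by ring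
      rw [e] at m2
      linarith
    · have e : h * (193 * (δ * (x : ℝ) ^ 2)) = 193 * (h * x ^ 2 * δ) := by ring
      rw [e] at m2
      linarith
  refine hfin.trans ?_
  have h201 : 201 * δ ≤ 1 / L ^ B := by
    rw [hδ, pow_add, le_div_iff₀ (by positivity)]
    have h1 : 201 * (1 / (L ^ B * L ^ 4)) * L ^ B = 201 / L ^ 4 := by
      field_simp
    rw [h1, div_le_one (by positivity)]
    have h2 : (5 : ℝ) ^ 4 ≤ L ^ 4 := pow_le_pow_left₀ (by norm_num) hL 4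
    norm_num at h2
    linarith
  have e3 : 201 * (h * (x : ℝ) ^ 2 * δ) = h * x ^ 2 * (201 * δ) := by ring
  have e4 : h * (x : ℝ) ^ 2 / L ^ B = h * x ^ 2 * (1 / L ^ B) := by ring
  rw [e3, e4]
  exact mul_le_mul_of_nonneg_left h201 (by positivity)

end Pool.Agent.FJ
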