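import Pool.Agent.helper95.FJ.SpecX
import Pool.Agent.helper52.FI.GD1

/-!
# Row GDT (MP_ad8ced_nt)
-/

set_option autoImplicit false

open Finset

noncomputable section

namespace Pool.Agent.FJ

open Finset Pool.Agent.FI Pool.Agent.BP

private theorem GDT_lep : 1 ≤ lep := by
  unfold lep
  rw [Real.le_log_iff_exp_le (by positivity)]
  have h1 := Real.exp_one_lt_d9
  have h2 : 0 ≤ √(8 : ℝ) := Real.sqrt_nonneg _
  linarith

private theorem GDT_ang_one : ang 1 = 0 := by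
  unfold ang
  rw [Complex.arg_one, if_neg (lt_irrefl _), neg_zero]

private theorem GDT_ang_exp (w : ℂ) (hw : ‖w‖ = 1) :
    w * Complex.exp ((ang w : ℂ) * Complex.I) = 1 := by
  have h1 := Complex.norm_mul_exp_arg_mul_I w
  rw [hw, Complex.ofReal_one, one_mul] at h1
  have h2 : Complex.exp ((ang w : ℂ) * Complex.I) = Complex.exp (-((w.arg : ℂ) * Complex.I)) := by
    unfold ang
    split_ifs
    · push_cast
      rw [show (2 * (Real.pi : ℂ) - (w.arg : ℂ)) * Complex.I =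
        -((w.arg : ℂ) * Complex.I) + 2 * Real.pi * Complex.I by ring, Complex.exp_add,
        Complex.exp_two_pi_mul_I, mul_one]
    · push_cast
      rw [neg_mul]
  rw [h2]
  calc w * Complex.exp (-((w.arg : ℂ) * Complex.I))
      = Complex.exp ((w.arg : ℂ) * Complex.I) * Complex.exp (-((w.arg : ℂ) * Complex.I)) := by
        rw [h1]
    _ = 1 := by rw [← Complex.exp_add, add_neg_cancel, Complex.exp_zero]

private theorem GDT_nn31 : nn (3, 1) = 1 := by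
  unfold nn N8
  norm_num

private theorem GDT_uinv (ψ : ℤ × ℤ → ℂ) (d : ℕ) (hψ : IsRC d ψ) (j : ℕ) (m : ℤ) :
    UInv ψ j (fr (ang (ψ (3, 1) * (-1) ^ j)) m) := by
  have h31 : ‖ψ (3, 1)‖ = 1 := hψ.2.2.2.1 (3, 1) (by
    rw [GDT_nn31]
    exact Nat.coprime_one_left d)
  obtain ⟨w, hwd⟩ : ∃ w : ℂ, w = ψ (3, 1) * (-1) ^ j := ⟨_, rfl⟩
  have hw : ‖w‖ = 1 := by
    rw [hwd, norm_mul, norm_pow, norm_neg, norm_one, one_pow, h31, mul_one]
  unfold UInv
  rw [← hwd]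
  have hl : (lep : ℂ) ≠ 0 := by
    have := GDT_lep
    exact_mod_cast (by linarith : lep ≠ 0)
  have e : ((fr (ang w) m : ℝ) : ℂ) * (2 * (Real.log (3 + √8) : ℂ)) * Complex.I =
      (ang w : ℂ) * Complex.I + m * (2 * Real.pi * Complex.I) := by
    have e2 : ((Real.log (3 + √8) : ℝ) : ℂ) = (lep : ℂ) := rfl
    rw [e2]
    unfold fr
    push_cast
    field_simp
  rw [e, Complex.exp_add, Complex.exp_int_mul_two_pi_mul_I, mul_one]
  exact GDT_ang_exp w hw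

private theorem GDT_dec (d : ℕ) (hd : Squarefree d) : ∃ e d' : ℕ, e ≤ 1 ∧ Odd d' ∧ Squarefree d' ∧
    d' ≤ d ∧ d = 2 ^ e * d' ∧
    ∏ p ∈ d.primeFactors, gg p = 1 / 2 ^ e * ∏ p ∈ d'.primeFactors, gg p := by
  rcases Nat.even_or_odd d with he | ho
  · obtain ⟨d', hd'⟩ := he
    have hdd : d = 2 * d' := by omega
    have hodd : Odd d' := by
      rw [← Nat.not_even_iff_odd]
      rintro ⟨r, hr⟩
      have h1 : 2 * 2 ∣ d := ⟨r, by omega⟩
      have h2 := hd 2 h1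
      rw [Nat.isUnit_iff] at h2
      omega
    have hsq : Squarefree d' := hd.squarefree_of_dvd ⟨2, by omega⟩
    refine ⟨1, d', le_rfl, hodd, hsq, by omega, by rw [pow_one]; exact hdd, ?_⟩
    have hcop : Nat.Coprime 2 d' := hodd.coprime_two_left
    rw [hdd, hcop.primeFactors_mul, prod_union hcop.disjoint_primeFactors,
      Nat.Prime.primeFactors Nat.prime_two, prod_singleton]
    have hg : gg 2 = 1 / 2 ^ 1 := by
      unfold gg ch8
      norm_num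
    rw [hg]
  · exact ⟨0, d, by omega, ho, hd, le_rfl, by rw [pow_zero, one_mul], by rw [pow_zero, div_one, one_mul]⟩

private theorem GDT_frz (α : ℝ) (h0 : 0 ≤ α) (h1 : α < 2 * Real.pi) (m : ℤ) :
    fr α m = 0 ↔ α = 0 ∧ m = 0 := by
  have hl := GDT_lep
  have hpi := Real.pi_pos
  unfold fr
  rw [div_eq_zero_iff]
  constructor
  · rintro (h | h)
    · have hm : m = 0 := by
        by_contra hm
        rcases lt_or_gt_of_ne hm with hm | hm
        · have h2 : (m : ℝ) ≤ -1 := by exact_mod_cast (by omega : m ≤ -1)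
          nlinarith
        · have h2 : (1 : ℝ) ≤ m := by exact_mod_cast (by omega : 1 ≤ m)
          nlinarith
      subst hm
      simp only [Int.cast_zero, mul_zero, add_zero] at h
      exact ⟨h, rfl⟩
    · linarith
  · rintro ⟨h2, h3⟩
    left
    rw [h2, h3]
    simp

private theorem GDT_PW (u : ℕ) (w : ℕ → ℝ) (F G : ℤ × ℤ → ℂ)
    (h : ∀ z, (nn z).Prime → w (nn z) ≠ 0 → F z = G z) : PW u w F = PW u w G := by
  unfold PW
  refine sum_congr rfl fun z hz => ?_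
  rw [mem_filter] at hz
  by_cases h0 : w (nn z) = 0
  · rw [h0, mul_zero, Complex.ofReal_zero, zero_mul, zero_mul]
  · rw [h z hz.2 h0]

/-- one triple -/
private theorem GDT_term (d k : ℕ) (ψ : Fin k → ℤ × ℤ → ℂ) (t₀ : Fin k)
    (ht₀ : ∀ z : ℤ × ℤ, Nat.Coprime (nn z) d → ψ t₀ z = 1)
    (huniq : ∀ t, (∀ z : ℤ × ℤ, Nat.Coprime (nn z) d → ψ t z = 1) → t = t₀)
    (u : ℕ) (w : ℕ → ℝ) (hd0 : 0 < d) (hwd : ∀ n ≤ d, w n = 0) (h c : ℝ) (h0 : 0 < h)
    (hck : ∀ κ : ℝ, ‖ck h c κ‖ ≤ h) (hck0 : ck h c 0 = (h / (2 * lep) : ℂ)) (ε : ℝ) (K : ℕ)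
    (hK : 1 ≤ K) (T : ℂ) (j : ℕ) (t : Fin k) (i : ℕ) (hRC : IsRC d (ψ t))
    (hKEY : ∑ m ∈ Icc (-(K : ℤ)) K with fr (ang (ψ t (3, 1) * (-1) ^ j)) m ≠ 0,
      ‖PW u w (HC (ψ t) j i (fr (ang (ψ t (3, 1) * (-1) ^ j)) m))‖ ≤ ε)
    (h0t : UInv (ψ t) j 0 → ¬ HTriv d (ψ t) j i 0 → ‖PW u w (HC (ψ t) j i 0)‖ ≤ ε)
    (hT : ‖PW u w (fun _ => 1) - T‖ ≤ ε) :
    ‖∑ m ∈ Icc (-(K : ℤ)) K, ((1 - |(m : ℝ)| / K : ℝ) : ℂ) *
        ck h c (fr (ang (ψ t (3, 1) * (-1) ^ j)) m) *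
        PW u w (HC (ψ t) j i (fr (ang (ψ t (3, 1) * (-1) ^ j)) m)) -
      (if j = 0 ∧ t = t₀ ∧ i = 0 then (h / (2 * lep) : ℂ) * T else 0)‖ ≤ 2 * (h * ε) := by
  have hl := GDT_lep
  have hε : 0 ≤ ε := (norm_nonneg _).trans hT
  have hK0 : (0 : ℝ) < K := by exact_mod_cast hK
  obtain ⟨α, hα⟩ : ∃ α : ℝ, α = ang (ψ t (3, 1) * (-1) ^ j) := ⟨_, rfl⟩
  have hα0 : 0 ≤ α := by rw [hα]; exact (GD1_ang _).1
  have hα1 : α < 2 * Real.pi := by rw [hα]; exact (GD1_ang _).2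
  have hui : ∀ m : ℤ, UInv (ψ t) j (fr α m) := fun m => by
    rw [hα]
    exact GDT_uinv (ψ t) d hRC j m
  rw [← hα] at hKEY ⊢
  rw [← sum_filter_add_sum_filter_not (Icc (-(K : ℤ)) K) (fun m => fr α m ≠ 0)]
  have hfirst : ‖∑ m ∈ (Icc (-(K : ℤ)) K).filter (fun m => fr α m ≠ 0),
      ((1 - |(m : ℝ)| / K : ℝ) : ℂ) * ck h c (fr α m) * PW u w (HC (ψ t) j i (fr α m))‖ ≤ h * ε := by
    refine (norm_sum_le _ _).trans ?_
    refine le_trans (sum_le_sum (g := fun m => h * ‖PW u w (HC (ψ t) j i (fr α m))‖) ?_) ?_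
    · intro m hm
      rw [mem_filter, mem_Icc] at hm
      rw [norm_mul, norm_mul]
      have h1 : ‖((1 - |(m : ℝ)| / K : ℝ) : ℂ)‖ ≤ 1 := by
        rw [Complex.norm_real, Real.norm_eq_abs, abs_le]
        have h2 : |(m : ℝ)| ≤ K := by
          rw [abs_le]
          constructor
          · exact_mod_cast hm.1.1
          · exact_mod_cast hm.1.2
        have h3 : |(m : ℝ)| / K ≤ 1 := by rw [div_le_one hK0]; exact h2
        have h4 : 0 ≤ |(m : ℝ)| / K := by positivity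
        constructor <;> linarith
      refine mul_le_mul_of_nonneg_right ?_ (norm_nonneg _)
      calc ‖((1 - |(m : ℝ)| / K : ℝ) : ℂ)‖ * ‖ck h c (fr α m)‖ ≤ 1 * h :=
            mul_le_mul h1 (hck _) (norm_nonneg _) zero_le_one
        _ = h := one_mul h
    · rw [← mul_sum]
      exact mul_le_mul_of_nonneg_left hKEY h0.le
  have hsecond : ‖∑ m ∈ (Icc (-(K : ℤ)) K).filter (fun m => ¬ fr α m ≠ 0),
      ((1 - |(m : ℝ)| / K : ℝ) : ℂ) * ck h c (fr α m) * PW u w (HC (ψ t) j i (fr α m)) -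
      (if j = 0 ∧ t = t₀ ∧ i = 0 then (h / (2 * lep) : ℂ) * T else 0)‖ ≤ h * ε := by
    have hfac : ‖(h / (2 * lep) : ℂ)‖ ≤ h := by
      have : (h / (2 * lep) : ℂ) = ((h / (2 * lep) : ℝ) : ℂ) := by push_cast; rfl
      rw [this, Complex.norm_real, Real.norm_of_nonneg (by positivity)]
      rw [div_le_iff₀ (by linarith)]
      nlinarith
    by_cases ha : α = 0
    · have hset : (Icc (-(K : ℤ)) K).filter (fun m => ¬ fr α m ≠ 0) = {0} := by
        ext m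
        rw [mem_filter, mem_singleton, not_ne_iff, GDT_frz α hα0 hα1, mem_Icc]
        constructor
        · rintro ⟨-, -, h1⟩
          exact h1
        · rintro rfl
          exact ⟨⟨by omega, by omega⟩, ha, rfl⟩
      have hf0 : fr α 0 = 0 := (GDT_frz α hα0 hα1 0).2 ⟨ha, rfl⟩
      rw [hset, sum_singleton, hf0, hck0]
      simp only [Int.cast_zero, abs_zero, zero_div, sub_zero, Complex.ofReal_one, one_mul]
      by_cases hcase : j = 0 ∧ t = t₀ ∧ i = 0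
      · rw [if_pos hcase, ← mul_sub, norm_mul]
        obtain ⟨rfl, rfl, rfl⟩ := hcase
        have e3 : PW u w (HC (ψ t) 0 0 0) = PW u w (fun _ => 1) := by
          apply GDT_PW
          intro z hz hw
          have hzd : d < nn z := by
            by_contra hcon
            exact hw (hwd _ (by omega))
          have e4 : ψ t z = 1 := ht₀ z (by
            rw [hz.coprime_iff_not_dvd]
            intro hdv
            have := Nat.le_of_dvd hd0 hdv
            omega)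
          unfold HC
          rw [e4]
          simp
        rw [e3]
        exact mul_le_mul hfac hT (norm_nonneg _) h0.le
      · rw [if_neg hcase, sub_zero, norm_mul]
        have hnt : ¬ HTriv d (ψ t) j i 0 := by
          rintro ⟨g1, g2, g3, -⟩
          exact hcase ⟨g2, huniq t g1, g3⟩
        have hu0 : UInv (ψ t) j 0 := by
          have := hui 0
          rw [hf0] at this
          exact this
        exact mul_le_mul hfac (h0t hu0 hnt) (norm_nonneg _) h0.le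
    · have hset : (Icc (-(K : ℤ)) K).filter (fun m => ¬ fr α m ≠ 0) = ∅ := by
        rw [filter_eq_empty_iff]
        intro m _
        rw [not_ne_iff, GDT_frz α hα0 hα1]
        exact fun h1 => ha h1.1
      have hcase : ¬ (j = 0 ∧ t = t₀ ∧ i = 0) := by
        rintro ⟨rfl, rfl, -⟩
        apply ha
        rw [hα, ht₀ (3, 1) (by
          rw [GDT_nn31]
          exact Nat.coprime_one_left d), pow_zero, mul_one, GDT_ang_one]
      rw [hset, sum_empty, if_neg hcase, sub_zero, norm_zero]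
      exact mul_nonneg h0.le hε
  have e : ∀ a b M : ℂ, a + b - M = a + (b - M) := fun a b M => by ring
  rw [e]
  refine (norm_add_le _ _).trans ?_
  linarith

private theorem GDT_sum (e k : ℕ) (t₀ : Fin k) (f : ℕ → Fin k → ℕ → ℂ) (M : ℂ) (ε : ℝ)
    (h : ∀ j ∈ range (e + 1), ∀ t, ∀ i ∈ range 2,
      ‖f j t i - (if j = 0 ∧ t = t₀ ∧ i = 0 then M else 0)‖ ≤ ε) :
    ‖(∑ j ∈ range (e + 1), ∑ t : Fin k, ∑ i ∈ range 2, (-1 : ℂ) ^ i * f j t i) - M‖ ≤
      ((e + 1) * (k * 2)) * ε := by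
  obtain ⟨S, hS⟩ : ∃ S : Finset (ℕ × Fin k × ℕ),
    S = range (e + 1) ×ˢ ((univ : Finset (Fin k)) ×ˢ range 2) := ⟨_, rfl⟩
  have h1 : (∑ j ∈ range (e + 1), ∑ t : Fin k, ∑ i ∈ range 2, (-1 : ℂ) ^ i * f j t i) =
      ∑ x ∈ S, (-1 : ℂ) ^ x.2.2 * f x.1 x.2.1 x.2.2 := by
    rw [hS]
    simp only [sum_product]
  have hx0 : ((0, t₀, 0) : ℕ × Fin k × ℕ) ∈ S := by
    rw [hS]
    simp
  have h2 : ∑ x ∈ S, (if x = (0, t₀, 0) then M else 0) = M := by
    rw [sum_ite_eq', if_pos hx0]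
  have hcard : (#S : ℝ) = (e + 1) * (k * 2) := by
    rw [hS, card_product, card_product, card_range, card_range, card_univ, Fintype.card_fin]
    push_cast
    ring
  rw [h1]
  calc ‖∑ x ∈ S, (-1 : ℂ) ^ x.2.2 * f x.1 x.2.1 x.2.2 - M‖
      = ‖∑ x ∈ S, ((-1 : ℂ) ^ x.2.2 * f x.1 x.2.1 x.2.2 - (if x = (0, t₀, 0) then M else 0))‖ := by
        rw [sum_sub_distrib, h2]
    _ ≤ ∑ x ∈ S, ‖(-1 : ℂ) ^ x.2.2 * f x.1 x.2.1 x.2.2 - (if x = (0, t₀, 0) then M else 0)‖ :=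
        norm_sum_le _ _
    _ ≤ ∑ x ∈ S, ε := by
        refine sum_le_sum fun x hx => ?_
        rw [hS, mem_product, mem_product] at hx
        have h3 := h x.1 hx.1 x.2.1 x.2.2 hx.2.2
        have h4 : (x = (0, t₀, 0)) = (x.1 = 0 ∧ x.2.1 = t₀ ∧ x.2.2 = 0) := by
          rw [Prod.ext_iff, Prod.ext_iff]
        simp only [h4]
        by_cases hc : x.1 = 0 ∧ x.2.1 = t₀ ∧ x.2.2 = 0
        · rw [if_pos hc] at h3 ⊢
          rw [hc.2.2, pow_zero, one_mul]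
          rw [hc.2.2] at h3
          exact h3
        · rw [if_neg hc, sub_zero] at h3 ⊢
          rw [norm_mul, norm_pow, norm_neg, norm_one, one_pow, one_mul]
          exact h3
    _ = _ := by rw [sum_const, nsmul_eq_mul, hcard]

private theorem GDT_tl (v δ : ℝ) (hδ : 0 < δ) (n : ℕ) : 0 ≤ tl v δ n ∧ tl v δ n ≤ 1 := by
  unfold tl Pool.Agent.SK.tr0
  refine ⟨le_max_left _ _, max_le zero_le_one ?_⟩
  have : 0 ≤ |Real.log (n : ℝ) - v| / δ := by positivity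
  linarith

private theorem GDT_tl0 (v δ : ℝ) (hδ : 0 < δ) (n : ℕ) (h : Real.log n ≤ v - δ) : tl v δ n = 0 := by
  unfold tl Pool.Agent.SK.tr0
  apply max_eq_left
  have h1 : δ ≤ |Real.log (n : ℝ) - v| := by
    rw [abs_sub_comm]
    exact (by linarith : δ ≤ v - Real.log n).trans (le_abs_self _)
  have h2 : 1 ≤ |Real.log (n : ℝ) - v| / δ := by
    rw [le_div_iff₀ hδ, one_mul]
    exact h1
  linarith

/-- **GDT** -/
theorem GDT (hORT : ORT_stmt) (hGDF : GDF_stmt) (hKEY : KEY_stmt) (hHKW : HKW_stmt)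
    (hFOU : FOU_stmt) : GDT_stmt := by
  classical
  intro η hη B Kd
  obtain ⟨C₁, hC₁, hGD⟩ := hGDF
  obtain ⟨_, _, hFO⟩ := hFOU
  -- large exponents
  rcases le_or_gt (1 / 3) η with hbig | hsmall
  · refine ⟨1, ?_⟩
    intro x hx d _ _ v δ _ _ _ _ h c hh hhc hc1
    exfalso
    have hx1 : (1 : ℝ) ≤ x := by exact_mod_cast hx
    have h1 : (1 : ℝ) ≤ (x : ℝ) ^ (-(1 / 3) + η) := Real.one_le_rpow hx1 (by linarith)
    linarith
  obtain ⟨xK, hxK⟩ := hKEY (η / 2) (by linarith) (by linarith) (B + 2) B Kd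
  obtain ⟨xH, hxH⟩ := hHKW (B + 2) B
  obtain ⟨D, hD⟩ : ∃ D : ℝ, D = 432 * C₁ + 4 := ⟨_, rfl⟩
  have hlim : Filter.Tendsto (fun x : ℕ => Real.log (x : ℝ)) Filter.atTop Filter.atTop :=
    Real.tendsto_log_atTop.comp tendsto_natCast_atTop_atTop
  have hlog : ∀ᶠ x : ℕ in Filter.atTop, Real.log (x : ℝ) ^ B ≤ x := by
    have h1 := (Real.isLittleO_pow_log_id_atTop (n := B)).bound (c := 1) one_pos
    have h2 := tendsto_natCast_atTop_atTop.eventually h1
    filter_upwards [h2, hlim.eventually_ge_atTop 0] with x hx hx0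
    simp only [id_eq, one_mul, Real.norm_eq_abs] at hx
    rw [abs_of_nonneg (by positivity), abs_of_nonneg (Nat.cast_nonneg x)] at hx
    exact hx
  have hlog2 : ∀ᶠ x : ℕ in Filter.atTop, 2 * Real.log (x : ℝ) ^ (B + 5) ≤ (x : ℝ) ^ (η / 2) := by
    have h1 := (isLittleO_log_rpow_rpow_atTop ((B : ℝ) + 5) (by linarith : 0 < η / 2)).bound
      (c := 1 / 2) (by norm_num)
    have h2 := tendsto_natCast_atTop_atTop.eventually h1
    filter_upwards [h2, hlim.eventually_ge_atTop 0] with x hx hx0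
    rw [Real.norm_eq_abs, Real.norm_eq_abs, abs_of_nonneg (by positivity),
      abs_of_nonneg (by positivity)] at hx
    have h3 : Real.log (x : ℝ) ^ ((B : ℝ) + 5) = Real.log (x : ℝ) ^ (B + 5) := by
      rw [← Real.rpow_natCast]
      push_cast
      rfl
    rw [h3] at hx
    linarith
  obtain ⟨x₀, hx₀⟩ := Filter.eventually_atTop.1
    (((hlim.eventually_ge_atTop (max 5 D)).and hlog).and (hlog2.and (Filter.eventually_ge_atTop 2)))
  refine ⟨max x₀ (max xK xH), fun x hx d hd hdB v δ hδ hδ1 hv1 hv2 h c hh hhc hc1 => ?_⟩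
  obtain ⟨⟨hLD, hLB⟩, hL2, hx2⟩ := hx₀ x ((le_max_left _ _).trans hx)
  have hxK' := hxK x (((le_max_left _ _).trans (le_max_right _ _)).trans hx)
  have hxH' := hxH x (((le_max_right _ _).trans (le_max_right _ _)).trans hx)
  obtain ⟨L, hL⟩ : ∃ L : ℝ, L = Real.log x := ⟨_, rfl⟩
  rw [← hL] at hLD hLB hdB hδ hL2 hv1 hxK' hxH' ⊢
  have hL5 : 5 ≤ L := (le_max_left _ _).trans hLD
  have hLD' : D ≤ L := (le_max_right _ _).trans hLD
  have hL0 : 0 < L := by linarith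
  have hL1 : 1 ≤ L := by linarith
  have hx2' : (2 : ℝ) ≤ x := by exact_mod_cast hx2
  have hx0 : (0 : ℝ) < x := by linarith
  have hx1' : (1 : ℝ) ≤ x := by linarith
  have hδ0 : 0 < δ := lt_of_lt_of_le (by positivity) hδ
  have hxp : (0 : ℝ) < (x : ℝ) ^ (-(1 / 3) + η) := Real.rpow_pos_of_pos hx0 _
  have hh0 : 0 < h := hxp.trans_le hh
  have hh1 : h ≤ 1 := by linarith
  obtain ⟨e, d', he, hodd, hsq, hd'd, hdd, hprod⟩ := GDT_dec d hd
  have hd'pos : 0 < d' := hodd.pos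
  have hd'B : (d' : ℝ) ≤ L ^ B := (Nat.cast_le.2 hd'd).trans hdB
  obtain ⟨k, ψ, hFam, hk⟩ := hORT d' hodd hsq
  have hFam' := hFam
  obtain ⟨hk0, hRC, _, t₀, ht₀, huniq⟩ := hFam'
  obtain ⟨hck, hck0, _⟩ := hFO h c hh0 hhc hc1
  -- the weight
  have hw0 : ∀ n ≤ d', tl v δ n = 0 := by
    intro n hn
    apply GDT_tl0 v δ hδ0
    have h1 : (n : ℝ) ≤ x := (Nat.cast_le.2 hn).trans (hd'B.trans hLB)
    rcases Nat.eq_zero_or_pos n with h2 | h2
    · rw [h2, Nat.cast_zero, Real.log_zero]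
      linarith
    · have h3 : Real.log n ≤ L := by
        rw [hL]
        exact Real.log_le_log (by exact_mod_cast h2) h1
      linarith
  -- the length
  obtain ⟨K, hK⟩ : ∃ K : ℕ, K = ⌈L ^ (B + 5) / h⌉₊ := ⟨_, rfl⟩
  have hLE : 1 ≤ L ^ (B + 5) := one_le_pow₀ hL1
  have hK1 : L ^ (B + 5) / h ≤ K := by
    rw [hK]
    exact Nat.le_ceil _
  have hq1 : 1 ≤ L ^ (B + 5) / h := by
    rw [le_div_iff₀ hh0]
    linarith
  have hK2 : (K : ℝ) ≤ 2 * (L ^ (B + 5) / h) := by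
    rw [hK]
    have := (Nat.ceil_lt_add_one (by positivity : 0 ≤ L ^ (B + 5) / h)).le
    linarith
  have hKpos : 1 ≤ K := by
    have h2 : (1 : ℝ) ≤ K := hq1.trans hK1
    exact_mod_cast h2
  have hKr : (0 : ℝ) < K := by exact_mod_cast hKpos
  have hKx : (K : ℝ) ≤ (x : ℝ) ^ (1 / 3 - η / 2) := by
    have h1 : 1 / h ≤ (x : ℝ) ^ (1 / 3 - η) := by
      rw [div_le_iff₀ hh0]
      have h2 : (x : ℝ) ^ (1 / 3 - η) * (x : ℝ) ^ (-(1 / 3) + η) = 1 := by
        rw [← Real.rpow_add hx0]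
        have : (1 / 3 - η) + (-(1 / 3) + η) = 0 := by ring
        rw [this, Real.rpow_zero]
      calc (1 : ℝ) = (x : ℝ) ^ (1 / 3 - η) * (x : ℝ) ^ (-(1 / 3) + η) := h2.symm
        _ ≤ (x : ℝ) ^ (1 / 3 - η) * h :=
            mul_le_mul_of_nonneg_left hh (Real.rpow_nonneg hx0.le _)
    calc (K : ℝ) ≤ 2 * (L ^ (B + 5) / h) := hK2
      _ = (2 * L ^ (B + 5)) * (1 / h) := by ring
      _ ≤ (x : ℝ) ^ (η / 2) * (x : ℝ) ^ (1 / 3 - η) := mul_le_mul hL2 h1 (by positivity) (by positivity)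
      _ = (x : ℝ) ^ (1 / 3 - η / 2) := by
          rw [← Real.rpow_add hx0]
          congr 1
          ring
  have hhK : L ^ (B + 5) ≤ h * K := by
    rw [div_le_iff₀ hh0] at hK1
    linarith
  have hlogK : 1 + Real.log K ≤ 2 * L := by
    have h1 : (K : ℝ) ≤ x := by
      refine hKx.trans ?_
      calc (x : ℝ) ^ (1 / 3 - η / 2) ≤ (x : ℝ) ^ (1 : ℝ) :=
            Real.rpow_le_rpow_of_exponent_le hx1' (by linarith)
        _ = x := Real.rpow_one _
    have h2 : Real.log K ≤ L := by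
      rw [hL]
      exact Real.log_le_log hKr h1
    linarith
  have hu2 : 2 ≤ 64 * x ^ 2 := by
    have : 0 < x ^ 2 := by positivity
    omega
  have hG := hGD d' k e ψ hodd he hFam (64 * x ^ 2) (tl v δ) hu2
    (fun n => (GDT_tl v δ hδ0 n).1) (fun n => (GDT_tl v δ hδ0 n).2) hw0 h c hh0 hhc hc1 K hKpos
  rw [← hdd] at hG
  obtain ⟨ε, hε⟩ : ∃ ε : ℝ, ε = (x : ℝ) ^ 2 / L ^ (B + 2) := ⟨_, rfl⟩
  have hε0 : 0 ≤ ε := by rw [hε]; positivity
  obtain ⟨T, hT⟩ : ∃ T : ℝ, T = ∑ n ∈ Ioc 0 (64 * x ^ 2), tl v δ n := ⟨_, rfl⟩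
  obtain ⟨hH1, hH2⟩ := hxH' v δ hδ0
  rw [← hε] at hH2
  have hTc : ∑ n ∈ Ioc 0 (64 * x ^ 2), (tl v δ n : ℂ) = (T : ℂ) := by
    rw [hT]
    push_cast
    rfl
  rw [hTc] at hH2
  have hS := GDT_sum e k t₀ (fun j t i => ∑ m ∈ Icc (-(K : ℤ)) K, ((1 - |(m : ℝ)| / K : ℝ) : ℂ) *
        ck h c (fr (ang (ψ t (3, 1) * (-1) ^ j)) m) *
        PW (64 * x ^ 2) (tl v δ) (HC (ψ t) j i (fr (ang (ψ t (3, 1) * (-1) ^ j)) m)))
    ((h / (2 * lep) : ℂ) * (T : ℂ)) (2 * (h * ε)) (by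
      intro j hj t i hi
      rw [mem_range] at hj hi
      refine GDT_term d' k ψ t₀ ht₀ huniq (64 * x ^ 2) (tl v δ) hd'pos hw0 h c hh0 hck hck0 ε K
        hKpos (T : ℂ) j t i (hRC t) ?_ ?_ hH2
      · rw [hε]
        exact hxK' d' hodd hd'B (ψ t) (hRC t) j i (by omega) (by omega) _ (GD1_ang _).1 (GD1_ang _).2
          (fun m => GDT_uinv (ψ t) d' (hRC t) j m) K hKx v δ hδ hδ1 hv1 hv2
      · intro hui hnt
        rw [hε]
        exact hH1 d' hodd hsq hd'B (ψ t) (hRC t) j i (by omega) (by omega) hui hnt)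
  obtain ⟨SS, hSS⟩ : ∃ SS : ℂ, SS = ∑ j ∈ range (e + 1), ∑ t : Fin k, ∑ i ∈ range 2, (-1 : ℂ) ^ i *
      ∑ m ∈ Icc (-(K : ℤ)) K, ((1 - |(m : ℝ)| / K : ℝ) : ℂ) *
        ck h c (fr (ang (ψ t (3, 1) * (-1) ^ j)) m) *
        PW (64 * x ^ 2) (tl v δ) (HC (ψ t) j i (fr (ang (ψ t (3, 1) * (-1) ^ j)) m)) := ⟨_, rfl⟩
  rw [← hSS] at hG hS
  -- the difference
  have hkR : (0 : ℝ) < k := by exact_mod_cast hk0
  have hl := GDT_lep
  have hfac : ‖(1 / (2 ^ e * k * 2) : ℂ)‖ = 1 / (2 ^ e * k * 2) := by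
    have : (1 / (2 ^ e * k * 2) : ℂ) = ((1 / (2 ^ e * k * 2) : ℝ) : ℂ) := by push_cast; rfl
    rw [this, Complex.norm_real, Real.norm_of_nonneg (by positivity)]
  have hmain : (((∏ p ∈ d.primeFactors, gg p) * (h * T / (4 * lep)) : ℝ) : ℂ) =
      (1 / (2 ^ e * k * 2) : ℂ) * ((h / (2 * lep) : ℂ) * (T : ℂ)) := by
    rw [hprod, ← hk]
    have hlc : (lep : ℂ) ≠ 0 := by exact_mod_cast (by linarith : lep ≠ 0)
    have hkc : (k : ℂ) ≠ 0 := by exact_mod_cast hkR.ne'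
    push_cast
    field_simp
    ring
  rw [← hT]
  have hdiff : |Gw (64 * x ^ 2) (tl v δ) h c d - (∏ p ∈ d.primeFactors, gg p) * (h * T / (4 * lep))| ≤
      C₁ * (1 + Real.log K) / (h * K) * (Real.log ((64 * x ^ 2 : ℕ) : ℝ) *
        (h * ((64 * x ^ 2 : ℕ) : ℝ) + √((64 * x ^ 2 : ℕ) : ℝ))) +
        1 / (2 ^ e * k * 2) * (((e + 1) * (k * 2)) * (2 * (h * ε))) := by
    rw [← Real.norm_eq_abs, ← Complex.norm_real, Complex.ofReal_sub, hmain]
    have e1 : (Gw (64 * x ^ 2) (tl v δ) h c d : ℂ) -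
        (1 / (2 ^ e * k * 2) : ℂ) * ((h / (2 * lep) : ℂ) * (T : ℂ)) =
        ((Gw (64 * x ^ 2) (tl v δ) h c d : ℂ) - (1 / (2 ^ e * k * 2) : ℂ) * SS) +
          (1 / (2 ^ e * k * 2) : ℂ) * (SS - (h / (2 * lep) : ℂ) * (T : ℂ)) := by ring
    rw [e1]
    refine (norm_add_le _ _).trans (add_le_add hG ?_)
    rw [norm_mul, hfac]
    exact mul_le_mul_of_nonneg_left hS (by positivity)
  refine hdiff.trans ?_
  -- first error
  have hlX : Real.log ((64 * x ^ 2 : ℕ) : ℝ) ≤ 3 * L := by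
    push_cast
    rw [Real.log_mul (by norm_num) (by positivity), Real.log_pow, ← hL]
    have h1 : Real.log (64 : ℝ) ≤ 5 := by
      have h2 : Real.log (64 : ℝ) = 6 * Real.log 2 := by
        rw [show (64 : ℝ) = 2 ^ 6 by norm_num, Real.log_pow]
        norm_num
      rw [h2]
      linarith [Real.log_two_lt_d9]
    push_cast
    linarith
  have hsq8 : √((64 * x ^ 2 : ℕ) : ℝ) = 8 * x := by
    push_cast
    rw [show (64 : ℝ) * (x : ℝ) ^ 2 = (8 * x) ^ 2 by ring, Real.sqrt_sq (by positivity)]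
  have hxh : (x : ℝ) ≤ h * x ^ 2 := by
    have h1 : (x : ℝ) ^ (-1 : ℝ) ≤ h := by
      refine le_trans ?_ hh
      exact Real.rpow_le_rpow_of_exponent_le hx1' (by linarith)
    rw [Real.rpow_neg_one] at h1
    calc (x : ℝ) = (x : ℝ)⁻¹ * x ^ 2 := by field_simp
      _ ≤ h * x ^ 2 := mul_le_mul_of_nonneg_right h1 (by positivity)
  have herr1 : C₁ * (1 + Real.log K) / (h * K) * (Real.log ((64 * x ^ 2 : ℕ) : ℝ) *
        (h * ((64 * x ^ 2 : ℕ) : ℝ) + √((64 * x ^ 2 : ℕ) : ℝ))) ≤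
      432 * C₁ * (h * x ^ 2) / L ^ (B + 3) := by
    have h1 : C₁ * (1 + Real.log K) / (h * K) ≤ C₁ * (2 * L) / L ^ (B + 5) := by
      apply div_le_div₀ (by positivity) _ (by positivity) hhK
      exact mul_le_mul_of_nonneg_left hlogK hC₁.le
    have h2 : h * ((64 * x ^ 2 : ℕ) : ℝ) + √((64 * x ^ 2 : ℕ) : ℝ) ≤ 72 * (h * x ^ 2) := by
      rw [hsq8]
      push_cast
      linarith
    have h3 : 0 ≤ h * ((64 * x ^ 2 : ℕ) : ℝ) + √((64 * x ^ 2 : ℕ) : ℝ) := by positivity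
    have h4 : 0 ≤ Real.log ((64 * x ^ 2 : ℕ) : ℝ) := Real.log_natCast_nonneg _
    calc C₁ * (1 + Real.log K) / (h * K) * (Real.log ((64 * x ^ 2 : ℕ) : ℝ) *
        (h * ((64 * x ^ 2 : ℕ) : ℝ) + √((64 * x ^ 2 : ℕ) : ℝ)))
        ≤ C₁ * (2 * L) / L ^ (B + 5) * (3 * L * (72 * (h * x ^ 2))) := by
          refine mul_le_mul h1 ?_ (mul_nonneg h4 h3) (by positivity)
          exact mul_le_mul hlX h2 h3 (by positivity)
      _ = 432 * C₁ * (h * x ^ 2) / L ^ (B + 3) := by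
          have e2 : L ^ (B + 5) = L ^ (B + 3) * L ^ 2 := by rw [← pow_add]
          rw [e2]
          field_simp
          ring
  have herr2 : 1 / (2 ^ e * k * 2) * (((e + 1) * (k * 2)) * (2 * (h * ε))) ≤
      2 * (h * x ^ 2) / L ^ (B + 2) := by
    have h10 : 1 / (2 ^ e * k * 2) * (((e + 1) * (k * 2)) * (2 * (h * ε))) =
        ((e + 1) / 2 ^ e) * (2 * (h * ε)) := by
      field_simp
    have h11 : ((e : ℝ) + 1) / 2 ^ e ≤ 1 := by
      interval_cases e <;> norm_num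
    rw [h10]
    calc ((e : ℝ) + 1) / 2 ^ e * (2 * (h * ε)) ≤ 1 * (2 * (h * ε)) :=
          mul_le_mul_of_nonneg_right h11 (by positivity)
      _ = 2 * (h * x ^ 2) / L ^ (B + 2) := by
          rw [hε]
          ring
  have hfin2 : 432 * C₁ * (h * x ^ 2) / L ^ (B + 3) + 2 * (h * x ^ 2) / L ^ (B + 2) ≤
      h * x ^ 2 / L ^ B := by
    have e1 : 432 * C₁ * (h * x ^ 2) / L ^ (B + 3) = (h * x ^ 2 / L ^ B) * (432 * C₁ / L ^ 3) := by
      rw [pow_add]
      field_simp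
    have e2 : 2 * (h * x ^ 2) / L ^ (B + 2) = (h * x ^ 2 / L ^ B) * (2 / L ^ 2) := by
      rw [pow_add]
      field_simp
    rw [e1, e2, ← mul_add]
    have h12 : 432 * C₁ / L ^ 3 + 2 / L ^ 2 ≤ 1 := by
      have h13 : 432 * C₁ / L ^ 3 ≤ 432 * C₁ / L := by
        apply div_le_div_of_nonneg_left (by positivity) hL0
        calc L = L ^ 1 := (pow_one L).symm
          _ ≤ L ^ 3 := pow_le_pow_right₀ hL1 (by norm_num)
      have h14 : 2 / L ^ 2 ≤ 2 / L := by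
        apply div_le_div_of_nonneg_left (by norm_num) hL0
        calc L = L ^ 1 := (pow_one L).symm
          _ ≤ L ^ 2 := pow_le_pow_right₀ hL1 (by norm_num)
      have h15 : 432 * C₁ / L + 2 / L ≤ 1 := by
        rw [← add_div, div_le_one hL0]
        linarith
      linarith
    calc (h * x ^ 2 / L ^ B) * (432 * C₁ / L ^ 3 + 2 / L ^ 2) ≤ (h * x ^ 2 / L ^ B) * 1 :=
          mul_le_mul_of_nonneg_left h12 (by positivity)
      _ = h * x ^ 2 / L ^ B := mul_one _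
  linarith

end Pool.Agent.FJ
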