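import Pool.Agent.helper95.FJ.SpecX
import Pool.Agent.helper52.FI.GD1

/-!
# Row GXP (MP_ad8ced_nt)
-/

set_option autoImplicit false

open Finset

noncomputable section

namespace Pool.Agent.FJ

open Finset Pool.Agent.FI Pool.Agent.BP

private theorem GXP_gg (p : ℕ) (hp : p.Prime) : 0 ≤ gg p ∧ gg p ≤ 1 := by
  have h2 : (2 : ℝ) ≤ p := by exact_mod_cast hp.two_le
  have h : ch8 p ≤ 1 := by
    unfold ch8
    split_ifs <;> norm_num
  have h3 : 1 ≤ (p : ℝ) - ch8 p := by linarith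
  unfold gg
  constructor
  · exact div_nonneg (by norm_num) (by linarith)
  · rw [div_le_one (by linarith)]
    exact h3

private theorem GXP_P (d : ℕ) : 0 ≤ ∏ p ∈ d.primeFactors, gg p ∧ ∏ p ∈ d.primeFactors, gg p ≤ 1 := by
  constructor
  · exact prod_nonneg fun p hp => (GXP_gg p (Nat.prime_of_mem_primeFactors hp)).1
  · exact prod_le_one (fun p hp => (GXP_gg p (Nat.prime_of_mem_primeFactors hp)).1)
      fun p hp => (GXP_gg p (Nat.prime_of_mem_primeFactors hp)).2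

private theorem GXP_lep : 1 ≤ lep := by
  unfold lep
  rw [Real.le_log_iff_exp_le (by positivity)]
  have h1 := Real.exp_one_lt_d9
  have h2 : 0 ≤ √(8 : ℝ) := Real.sqrt_nonneg _
  linarith

private theorem GXP_cosh (t : ℝ) (h0 : 0 ≤ t) (h1 : t ≤ 1 / 2) : Real.cosh t ^ 2 ≤ 2 := by
  have h2 : Real.cosh t ≤ Real.exp (t ^ 2 / 2) := Real.cosh_le_exp_half_sq t
  have h3 : Real.cosh t ^ 2 ≤ Real.exp (t ^ 2 / 2) ^ 2 :=
    pow_le_pow_left₀ (by linarith [Real.one_le_cosh t]) h2 2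
  have h4 : Real.exp (t ^ 2 / 2) ^ 2 = Real.exp (t ^ 2) := by
    rw [← Real.exp_nat_mul]
    congr 1
    push_cast
    ring
  have h5 : Real.exp (t ^ 2) ≤ Real.exp (1 / 4) := Real.exp_le_exp.2 (by nlinarith)
  have h6 : Real.exp (1 / 4) ≤ 2 := by
    have e1 : Real.exp (1 / 4) ^ 4 = Real.exp 1 := by
      rw [← Real.exp_nat_mul]
      norm_num
    have e2 := Real.exp_one_lt_d9
    by_contra hcon
    push Not at hcon
    have e3 : (2 : ℝ) ^ 4 ≤ Real.exp (1 / 4) ^ 4 := pow_le_pow_left₀ (by norm_num) hcon.le 4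
    rw [e1] at e3
    linarith
  linarith

private theorem GXP_cu (x A m k : ℕ) (hx : 1 ≤ x) (hm : 1 ≤ m) (hk : k ≤ m) :
    2 * x ^ 2 ≤ cu1 x m k ∧ cu1 x m k ≤ cu2 x A m k ∧ cu2 x A m k ≤ 32 * x ^ 2 := by
  have hx' : (1 : ℝ) ≤ x := by exact_mod_cast hx
  have hm' : (1 : ℝ) ≤ m := by exact_mod_cast hm
  have hk' : (k : ℝ) ≤ m := by exact_mod_cast hk
  have hk0 : (0 : ℝ) ≤ k := Nat.cast_nonneg k
  have ht0 : 0 ≤ (k : ℝ) / (2 * m) := by positivity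
  have ht1 : (k : ℝ) / (2 * m) ≤ 1 / 2 := by
    rw [div_le_div_iff₀ (by linarith) (by norm_num)]
    linarith
  obtain ⟨t, ht⟩ : ∃ t : ℝ, t = (k : ℝ) / (2 * m) := ⟨_, rfl⟩
  have h1 : 1 ≤ Real.cosh t := Real.one_le_cosh t
  have h3 : Real.cosh t ^ 2 ≤ 2 := GXP_cosh t (by rw [ht]; exact ht0) (by rw [ht]; exact ht1)
  have h4 : 1 ≤ Real.cosh t ^ 2 := one_le_pow₀ h1
  have hx2 : 0 ≤ (x : ℝ) ^ 2 := sq_nonneg _
  have c1 : 2 * x ^ 2 ≤ cu1 x m k := by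
    unfold cu1
    rw [← ht]
    refine Nat.le_floor ?_
    rw [le_div_iff₀ (by linarith)]
    push_cast
    nlinarith
  have c2 : cu1 x m k ≤ 32 * x ^ 2 := by
    unfold cu1
    rw [← ht]
    refine Nat.floor_le_of_le ?_
    rw [div_le_iff₀ (by linarith)]
    push_cast
    nlinarith
  refine ⟨c1, le_max_left _ _, max_le c2 ?_⟩
  rw [← ht]
  refine Nat.floor_le_of_le ?_
  refine (min_le_left _ _).trans ?_
  rw [div_le_iff₀ (by linarith)]
  push_cast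
  nlinarith

/-- a nonempty cell has a small index -/
private theorem GXP_k (x A m k : ℕ) (hx : 1 ≤ x) (hk1 : 1 ≤ k) (hk : k ≤ m) (h : cu1 x m k < cu2 x A m k) :
    (k : ℝ) ≤ m * A / x := by
  have hm : 1 ≤ m := by omega
  have hx' : (1 : ℝ) ≤ x := by exact_mod_cast hx
  have hm' : (1 : ℝ) ≤ m := by exact_mod_cast hm
  have hk' : (k : ℝ) ≤ m := by exact_mod_cast hk
  have hk0 : (1 : ℝ) ≤ k := by exact_mod_cast hk1
  have hA0 : (0 : ℝ) ≤ A := Nat.cast_nonneg A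
  have ht0 : 0 < (k : ℝ) / (2 * m) := by positivity
  have ht1 : (k : ℝ) / (2 * m) ≤ 1 / 2 := by
    rw [div_le_div_iff₀ (by linarith) (by norm_num)]
    linarith
  obtain ⟨t, ht⟩ : ∃ t : ℝ, t = (k : ℝ) / (2 * m) := ⟨_, rfl⟩
  have ht0' : 0 < t := by rw [ht]; exact ht0
  have ht1' : t ≤ 1 / 2 := by rw [ht]; exact ht1
  have h1 : 1 ≤ Real.cosh t := Real.one_le_cosh t
  have h3 : Real.cosh t ^ 2 ≤ 2 := GXP_cosh t ht0'.le ht1'
  have h4 : 1 ≤ Real.cosh t ^ 2 := one_le_pow₀ h1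
  have hs : t ≤ Real.sinh t := Real.self_le_sinh_iff.2 ht0'.le
  have hs0 : 0 < Real.sinh t := by linarith
  have hlt : 8 * (x : ℝ) ^ 2 / Real.cosh t ^ 2 < (A : ℝ) ^ 2 / Real.sinh t ^ 2 := by
    by_contra hcon
    push Not at hcon
    refine absurd h (not_lt.2 ?_)
    unfold cu2
    refine max_le le_rfl ?_
    unfold cu1
    rw [← ht]
    exact Nat.floor_le_floor ((min_le_right _ _).trans hcon)
  rw [div_lt_div_iff₀ (by positivity) (by positivity)] at hlt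
  have h5 : t ^ 2 ≤ Real.sinh t ^ 2 := pow_le_pow_left₀ ht0'.le hs 2
  have hxx : 0 ≤ (x : ℝ) ^ 2 := sq_nonneg _
  have hAA : 0 ≤ (A : ℝ) ^ 2 := sq_nonneg _
  have h6 : 8 * (x : ℝ) ^ 2 * t ^ 2 ≤ (A : ℝ) ^ 2 * 2 := by
    have e1 : 8 * (x : ℝ) ^ 2 * t ^ 2 ≤ 8 * (x : ℝ) ^ 2 * Real.sinh t ^ 2 := mul_le_mul_of_nonneg_left h5 (by positivity)
    have e2 : (A : ℝ) ^ 2 * Real.cosh t ^ 2 ≤ (A : ℝ) ^ 2 * 2 := mul_le_mul_of_nonneg_left h3 hAA
    linarith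
  have h7 : (2 * x * t) ^ 2 ≤ (A : ℝ) ^ 2 := by nlinarith
  have h8 : 2 * x * t ≤ A := by
    exact (pow_le_pow_iff_left₀ (by positivity) hA0 (by norm_num)).1 h7
  rw [le_div_iff₀ (by linarith)]
  have h9 : 2 * (x : ℝ) * t = k * x / m := by
    rw [ht]
    field_simp
  rw [h9, div_le_iff₀ (by linarith)] at h8
  linarith

private theorem GXP_Gd (u : ℕ) (h c : ℝ) (d : ℕ) : Gd u u h c d = 0 := by
  unfold Gd
  refine sum_eq_zero fun z hz => ?_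
  rw [mem_filter] at hz
  have h1 := (GD1_mem.1 hz.1).2.2
  omega

theorem GXP (hGBB : GBB_stmt) (hGBR : GBR_stmt) (hGDS : GDS_stmt) : GXP_stmt := by
  intro η hη B
  obtain ⟨C₁, hC₁, hB⟩ := hGBB
  obtain ⟨C₂, hC₂, hR⟩ := hGBR
  obtain ⟨x₁, hD⟩ := hGDS (η / 2) (by linarith) (B + 3)
  obtain ⟨C, hC⟩ : ∃ C : ℝ, C = C₁ + C₂ + 1 := ⟨_, rfl⟩
  have hC0 : 1 ≤ C := by rw [hC]; linarith
  have hT : Filter.Tendsto (fun x : ℕ => (x : ℝ)) Filter.atTop Filter.atTop := tendsto_natCast_atTop_atTop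
  have ev1 : ∀ᶠ x : ℕ in Filter.atTop, 10 * C ≤ Real.log x :=
    (Real.tendsto_log_atTop.comp tendsto_natCast_atTop_atTop).eventually_ge_atTop _
  have ev2 : ∀ᶠ x : ℕ in Filter.atTop, Real.log x ^ (B + 1) ≤ 1 / (10 * C) * (x : ℝ) ^ (2 / 3 : ℝ) := by
    have h := isLittleO_log_rpow_rpow_atTop ((B + 1 : ℕ) : ℝ) (by norm_num : (0 : ℝ) < 2 / 3)
    have h1 : ∀ᶠ y : ℝ in Filter.atTop, ‖Real.log y ^ ((B + 1 : ℕ) : ℝ)‖ ≤ 1 / (10 * C) * ‖y ^ (2 / 3 : ℝ)‖ := h.def (by positivity)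
    filter_upwards [hT.eventually h1, hT.eventually_ge_atTop 1, ev1] with x h2 h3 h4
    rw [Real.rpow_natCast, Real.norm_eq_abs, Real.norm_eq_abs] at h2
    rw [abs_of_nonneg (pow_nonneg (Real.log_nonneg h3) _), abs_of_nonneg (Real.rpow_nonneg (by linarith) _)] at h2
    exact h2
  have ev3 : ∀ᶠ x : ℕ in Filter.atTop, Real.log x ^ (B + 4) ≤ 1 / 2 * (x : ℝ) ^ (η / 2) := by
    have h := isLittleO_log_rpow_rpow_atTop ((B + 4 : ℕ) : ℝ) (by linarith : (0 : ℝ) < η / 2)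
    have h1 : ∀ᶠ y : ℝ in Filter.atTop, ‖Real.log y ^ ((B + 4 : ℕ) : ℝ)‖ ≤ 1 / 2 * ‖y ^ (η / 2 : ℝ)‖ := h.def (by norm_num)
    filter_upwards [hT.eventually h1, hT.eventually_ge_atTop 1] with x h2 h3
    rw [Real.rpow_natCast, Real.norm_eq_abs, Real.norm_eq_abs] at h2
    rw [abs_of_nonneg (pow_nonneg (Real.log_nonneg h3) _), abs_of_nonneg (Real.rpow_nonneg (by linarith) _)] at h2
    exact h2
  obtain ⟨x₂, hx₂⟩ := Filter.eventually_atTop.1 (ev1.and (ev2.and ev3))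
  refine ⟨max x₁ (max x₂ 2), ?_⟩
  intro x hx d hdsf hd A hA1 hAx
  have hxx₁ : x₁ ≤ x := (le_max_left _ _).trans hx
  have hxx₂ : x₂ ≤ x := ((le_max_left _ _).trans (le_max_right _ _)).trans hx
  have hx2 : 2 ≤ x := ((le_max_right _ _).trans (le_max_right _ _)).trans hx
  obtain ⟨hL, hLx, hLη⟩ := hx₂ x hxx₂
  obtain ⟨L, hLdef⟩ : ∃ L : ℝ, L = Real.log x := ⟨_, rfl⟩
  rw [← hLdef] at hL hLx hLη hd ⊢
  have hL10 : 10 ≤ L := by linarith
  have hL1 : 1 ≤ L := by linarith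
  have hxR : (2 : ℝ) ≤ x := by exact_mod_cast hx2
  have hx0 : (0 : ℝ) < x := by linarith
  have hd1 : 1 ≤ d := Nat.one_le_iff_ne_zero.2 hdsf.ne_zero
  -- the size of `A`
  have hA23 : (x : ℝ) ^ (2 / 3 : ℝ) ≤ A := by
    refine le_trans ?_ hA1
    exact Real.rpow_le_rpow_of_exponent_le (by linarith) (by linarith)
  have hAx' : (A : ℝ) ≤ x := by exact_mod_cast hAx
  have hpow : L ^ (B + 1) * (10 * C) ≤ A := by
    have := mul_le_mul_of_nonneg_right hLx (by linarith : 0 ≤ 10 * C)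
    have e : 1 / (10 * C) * (x : ℝ) ^ (2 / 3 : ℝ) * (10 * C) = (x : ℝ) ^ (2 / 3 : ℝ) := by
      field_simp
    rw [e] at this
    linarith
  have hpow1 : 1 ≤ L ^ (B + 1) := one_le_pow₀ hL1
  have hA10 : (10 : ℝ) ≤ A := by nlinarith
  have hA0 : (0 : ℝ) < A := by linarith
  have hA1' : 1 ≤ A := by
    have : (1 : ℝ) ≤ A := by linarith
    exact_mod_cast this
  -- the number of cells
  obtain ⟨q, hq⟩ : ∃ q : ℝ, q = x / A * L ^ (B + 4) := ⟨_, rfl⟩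
  have hxA : 1 ≤ (x : ℝ) / A := by
    rw [le_div_iff₀ hA0]
    linarith
  have hL4 : L ≤ L ^ (B + 4) := by
    have := pow_le_pow_right₀ hL1 (by omega : 1 ≤ B + 4)
    simpa using this
  have hq10 : 10 ≤ q := by
    rw [hq]
    nlinarith
  obtain ⟨m, hm⟩ : ∃ m : ℕ, m = ⌈q⌉₊ := ⟨_, rfl⟩
  have hm1 : q ≤ m := by rw [hm]; exact Nat.le_ceil _
  have hm2 : (m : ℝ) ≤ 2 * q := by
    have h1 : (m : ℝ) < q + 1 := by
      rw [hm]
      exact Nat.ceil_lt_add_one (by linarith)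
    linarith
  have hm10 : 10 ≤ m := by
    have h2 : (10 : ℝ) ≤ m := by linarith
    exact_mod_cast h2
  have hm0 : (0 : ℝ) < m := by linarith
  have hh : (x : ℝ) ^ (-(1 / 3) + η / 2) ≤ 1 / m := by
    rw [le_div_iff₀ hm0]
    have e0 : 0 < (x : ℝ) ^ (-(1 / 3) + η / 2) := Real.rpow_pos_of_pos hx0 _
    have e1 : (x : ℝ) ^ (-(1 / 3) + η / 2) * m ≤ (x : ℝ) ^ (-(1 / 3) + η / 2) * (2 * q) :=
      mul_le_mul_of_nonneg_left hm2 e0.le
    refine e1.trans ?_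
    rw [hq]
    have e2 : (x : ℝ) ^ (-(1 / 3) + η / 2) * (2 * (x / A * L ^ (B + 4))) =
        (x : ℝ) ^ (-(1 / 3) + η / 2) * x * (2 * L ^ (B + 4)) / A := by
      field_simp
    rw [e2, div_le_one hA0]
    refine le_trans ?_ hA1
    have e3 : (x : ℝ) ^ (2 / 3 + η) = (x : ℝ) ^ (-(1 / 3) + η / 2) * x * (x : ℝ) ^ (η / 2) := by
      have e4 : (x : ℝ) ^ (-(1 / 3) + η / 2) * x = (x : ℝ) ^ (-(1 / 3) + η / 2 + 1) := by
        rw [Real.rpow_add_one hx0.ne']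
      rw [e4, ← Real.rpow_add hx0]
      congr 1
      ring
    rw [e3]
    refine mul_le_mul_of_nonneg_left ?_ (by positivity)
    linarith
  obtain ⟨P, hP⟩ : ∃ P : ℝ, P = ∏ p ∈ d.primeFactors, gg p := ⟨_, rfl⟩
  obtain ⟨hP0, hP1⟩ := GXP_P d
  rw [← hP] at hP0 hP1 ⊢
  have hlep := GXP_lep
  have g1 := hB x A m d hx2 hA1' hAx hm10 hd1
  have g2 := hR x A m hA1' hAx hm10
  rw [← hLdef] at g1
  have g3 : ∀ k ∈ Ico 1 m, |Gd (cu1 x m k) (cu2 x A m k) (1 / m) (k / m) d -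
      P / (4 * lep) * ((1 / (m : ℝ)) * ((cu2 x A m k : ℝ) - cu1 x m k))| ≤
      if k ∈ Icc 1 ⌊(m : ℝ) * A / x⌋₊ then 1 / (m : ℝ) * x ^ 2 / L ^ (B + 3) else 0 := by
    intro k hk
    rw [mem_Ico] at hk
    obtain ⟨u1, u2, u3⟩ := GXP_cu x A m k (by omega) (by omega) (by omega)
    have hk1 : (1 : ℝ) ≤ k := by exact_mod_cast hk.1
    have hk2 : (k : ℝ) + 1 ≤ m := by exact_mod_cast hk.2
    have hr0 : 0 ≤ 1 / (m : ℝ) * x ^ 2 / L ^ (B + 3) := by positivity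
    rcases u2.lt_or_eq with hlt | heq
    · have hkk := GXP_k x A m k (by omega) hk.1 (by omega) hlt
      have hmem : k ∈ Icc 1 ⌊(m : ℝ) * A / x⌋₊ := by
        rw [mem_Icc]
        exact ⟨hk.1, Nat.le_floor hkk⟩
      rw [if_pos hmem]
      have h := hD x hxx₁ d hdsf ?_ (cu1 x m k) (cu2 x A m k) u1 u2 u3 (1 / m) (k / m) hh ?_ ?_
      · rw [← hLdef, ← hP] at h
        have e2 : P / (4 * lep) * ((1 / (m : ℝ)) * ((cu2 x A m k : ℝ) - cu1 x m k)) =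
            P * ((1 / m) * ((cu2 x A m k : ℝ) - cu1 x m k) / (4 * lep)) := by ring
        rw [e2]
        exact h
      · rw [← hLdef]
        refine hd.trans ?_
        exact pow_le_pow_right₀ hL1 (by omega)
      · exact div_le_div_of_nonneg_right hk1 hm0.le
      · rw [← add_div, div_le_one hm0]
        exact hk2
    · rw [← heq, GXP_Gd, sub_self, mul_zero, mul_zero, sub_zero, abs_zero]
      split_ifs
      · exact hr0
      · exact le_rfl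
  have g4 : |∑ k ∈ Ico 1 m, Gd (cu1 x m k) (cu2 x A m k) (1 / m) (k / m) d -
      P / (4 * lep) * ∑ k ∈ Ico 1 m, (1 / (m : ℝ)) * ((cu2 x A m k : ℝ) - cu1 x m k)| ≤ A * x / L ^ (B + 3) := by
    rw [mul_sum, ← sum_sub_distrib]
    refine (abs_sum_le_sum_abs _ _).trans ?_
    refine (sum_le_sum g3).trans ?_
    rw [← sum_filter, sum_const, nsmul_eq_mul]
    have hr0 : 0 ≤ 1 / (m : ℝ) * x ^ 2 / L ^ (B + 3) := by positivity
    have e1 : ((#{k ∈ Ico 1 m | k ∈ Icc 1 ⌊(m : ℝ) * A / x⌋₊} : ℕ) : ℝ) ≤ (m : ℝ) * A / x := by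
      have e2 : #{k ∈ Ico 1 m | k ∈ Icc 1 ⌊(m : ℝ) * A / x⌋₊} ≤ #(Icc 1 ⌊(m : ℝ) * A / x⌋₊) := by
        refine card_le_card ?_
        intro k hk
        exact (mem_filter.1 hk).2
      have e3 : #(Icc 1 ⌊(m : ℝ) * A / x⌋₊) = ⌊(m : ℝ) * A / x⌋₊ := by simp
      rw [e3] at e2
      have e4 : ((#{k ∈ Ico 1 m | k ∈ Icc 1 ⌊(m : ℝ) * A / x⌋₊} : ℕ) : ℝ) ≤ (⌊(m : ℝ) * A / x⌋₊ : ℝ) := by
        exact_mod_cast e2
      exact e4.trans (Nat.floor_le (by positivity))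
    refine (mul_le_mul_of_nonneg_right e1 hr0).trans (le_of_eq ?_)
    field_simp
  have hq0 : 0 ≤ P / (4 * lep) := by positivity
  have hq1 : P / (4 * lep) ≤ 1 := by
    rw [div_le_one (by linarith)]
    linarith
  have g5 : |P / (4 * lep) * ∑ k ∈ Ico 1 m, (1 / (m : ℝ)) * ((cu2 x A m k : ℝ) - cu1 x m k) -
      P * (√8 / lep * (A * x))| ≤ C₂ * ((x : ℝ) ^ 2 / m + 1) := by
    have e1 : P * (√8 / lep * (A * x)) = P / (4 * lep) * (4 * √8 * (A * x)) := by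
      field_simp
    rw [e1, ← mul_sub, abs_mul, abs_of_nonneg hq0]
    calc P / (4 * lep) * |∑ k ∈ Ico 1 m, (1 / (m : ℝ)) * ((cu2 x A m k : ℝ) - cu1 x m k) - 4 * √8 * (A * x)|
        ≤ 1 * |∑ k ∈ Ico 1 m, (1 / (m : ℝ)) * ((cu2 x A m k : ℝ) - cu1 x m k) - 4 * √8 * (A * x)| :=
          mul_le_mul_of_nonneg_right hq1 (abs_nonneg _)
      _ ≤ _ := by rw [one_mul]; exact g2
  -- the errors
  obtain ⟨Y, hY⟩ : ∃ Y : ℝ, Y = (A : ℝ) * x / L ^ B := ⟨_, rfl⟩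
  have hLB : 0 < L ^ B := by positivity
  have hY0 : 0 ≤ Y := by rw [hY]; positivity
  obtain ⟨z, hz⟩ : ∃ z : ℝ, z = Y / L ^ 3 := ⟨_, rfl⟩
  have hz3 : Y = z * L ^ 3 := by
    rw [hz]
    field_simp
  have hz0 : 0 ≤ z := by rw [hz]; positivity
  have q1 : (x : ℝ) ^ 2 / m ≤ z / L := by
    have e1 : z / L = (x : ℝ) ^ 2 / q := by
      rw [hz, hY, hq]
      field_simp
      ring
    rw [e1]
    exact div_le_div_of_nonneg_left (by positivity) (by linarith) hm1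
  have hzL : z / L * L = z := by field_simp
  have hzL0 : 0 ≤ z / L := by positivity
  have hCL1 : 10 * C₁ ≤ L := by
    have : C₁ ≤ C := by rw [hC]; linarith
    linarith
  have hCL2 : 10 * C₂ ≤ L := by
    have : C₂ ≤ C := by rw [hC]; linarith
    linarith
  have hL3 : 100 * L ≤ L ^ 3 := by
    have e1 : L ^ 3 = L ^ 2 * L := by ring
    have e2 : 100 ≤ L ^ 2 := by nlinarith
    rw [e1]
    exact mul_le_mul_of_nonneg_right e2 (by linarith)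
  have hzY : z * (100 * L) ≤ Y := by
    rw [hz3]
    exact mul_le_mul_of_nonneg_left hL3 hz0
  have t1 : C₁ * x * (x / m) * L ≤ Y / 5 := by
    have e1 : C₁ * x * (x / m) * L = C₁ * L * ((x : ℝ) ^ 2 / m) := by ring
    rw [e1]
    have e2 : C₁ * L * ((x : ℝ) ^ 2 / m) ≤ C₁ * L * (z / L) := mul_le_mul_of_nonneg_left q1 (by positivity)
    have e3 : C₁ * L * (z / L) = C₁ * z := by
      rw [mul_assoc, mul_comm L, hzL]
    have e4 : C₁ * z ≤ L * z := mul_le_mul_of_nonneg_right (by linarith) hz0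
    nlinarith
  have t3 : C₂ * ((x : ℝ) ^ 2 / m) ≤ Y / 5 := by
    have e2 : C₂ * ((x : ℝ) ^ 2 / m) ≤ C₂ * (z / L) := mul_le_mul_of_nonneg_left q1 hC₂.le
    have e3 : C₂ * (z / L) ≤ L * (z / L) := mul_le_mul_of_nonneg_right (by linarith) hzL0
    have e4 : L * (z / L) = z := by rw [mul_comm, hzL]
    nlinarith
  have hpowB : L ^ (B + 1) = L ^ B * L := by ring
  have hpow0 : 0 < L ^ (B + 1) := by positivity
  have t2 : C₁ * x * L ≤ Y / 5 := by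
    rw [hY, div_div, le_div_iff₀ (by positivity)]
    have e1 : C₁ * x * L * (L ^ B * 5) = x * (L ^ (B + 1) * (5 * C₁)) := by
      rw [hpowB]
      ring
    have e2 : (A : ℝ) * x = x * A := by ring
    rw [e1, e2]
    refine mul_le_mul_of_nonneg_left ?_ (by linarith)
    refine le_trans ?_ hpow
    refine mul_le_mul_of_nonneg_left ?_ hpow0.le
    rw [hC]
    linarith
  have t4 : C₂ ≤ Y / 5 := by
    rw [hY, div_div, le_div_iff₀ (by positivity)]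
    have e1 : C₂ * (L ^ B * 5) ≤ L ^ (B + 1) * (10 * C) := by
      rw [hpowB]
      have e2 : C₂ * (L ^ B * 5) = L ^ B * (5 * C₂) := by ring
      have e3 : L ^ B * L * (10 * C) = L ^ B * (L * (10 * C)) := by ring
      rw [e2, e3]
      refine mul_le_mul_of_nonneg_left ?_ hLB.le
      have : C₂ ≤ C := by rw [hC]; linarith
      nlinarith
    nlinarith
  have t5 : (A : ℝ) * x / L ^ (B + 3) ≤ Y / 5 := by
    have e1 : (A : ℝ) * x / L ^ (B + 3) = z := by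
      rw [hz, hY, div_div, ← pow_add]
    rw [e1]
    nlinarith
  rw [← hY]
  have hfin := abs_sub_le (∑ ζ ∈ PZ x A with ((nn ζ).Prime ∧ (d : ℤ) ∣ ζ.2), Real.log (nn ζ))
    (∑ k ∈ Ico 1 m, Gd (cu1 x m k) (cu2 x A m k) (1 / m) (k / m) d) (P * (√8 / lep * (A * x)))
  have hfin2 := abs_sub_le (∑ k ∈ Ico 1 m, Gd (cu1 x m k) (cu2 x A m k) (1 / m) (k / m) d)
    (P / (4 * lep) * ∑ k ∈ Ico 1 m, (1 / (m : ℝ)) * ((cu2 x A m k : ℝ) - cu1 x m k)) (P * (√8 / lep * (A * x)))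
  have s1 : C₁ * x * (x / m + 1) * L = C₁ * x * (x / m) * L + C₁ * x * L := by ring
  have s2 : C₂ * ((x : ℝ) ^ 2 / m + 1) = C₂ * ((x : ℝ) ^ 2 / m) + C₂ := by ring
  linarith

end Pool.Agent.FJ
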