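import Pool.Agent.helper95.FJ.SpecD
import Pool.Agent.helper85.BVP.Tau

/-!
# Row LSA (MP_ad8ced_nt)
-/

set_option autoImplicit false

open Finset

namespace Pool.Agent.FJ

open Finset Pool.Agent.FI

open scoped Classical in
/-- the twisted sum, with the condition on the conductor -/
private noncomputable def LSA_F (c₁ c₂ : ℕ) (S : Finset ℤ) (b : ℤ → ℂ) (k r : ℕ)
    (ψ : DirichletCharacter ℂ r) : ℝ :=
  if c₁ < r ∧ r ≤ c₂ then ‖∑ n ∈ S with IsCoprime n (k : ℤ), b n * ψ (n : ZMod r)‖ ^ 2 else 0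

open scoped Classical in
private theorem LSA_prim (S : Finset ℤ) (b : ℤ → ℂ) (m : ℕ) (χ : DirichletCharacter ℂ m) :
    ‖∑ n ∈ S, b n * χ (n : ZMod m)‖ ^ 2 =
      ‖∑ n ∈ S with IsCoprime n ((m / χ.conductor : ℕ) : ℤ),
        b n * χ.primitiveCharacter (n : ZMod χ.conductor)‖ ^ 2 := by
  rw [Finset.sum_filter]
  congr 2
  refine sum_congr rfl fun n _ => ?_
  have hd := χ.conductor_dvd_level
  have hms : m = χ.conductor * (m / χ.conductor) := (Nat.mul_div_cancel' hd).symm
  have hmz : (m : ℤ) = (χ.conductor : ℤ) * ((m / χ.conductor : ℕ) : ℤ) := by exact_mod_cast hms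
  by_cases h : IsCoprime n (m : ℤ)
  · have h2 := χ.primitiveCharacter_apply_of_isCoprime (a := n) h
    have h3 : IsCoprime n ((m / χ.conductor : ℕ) : ℤ) := by
      rw [hmz] at h
      exact h.of_mul_right_right
    rw [if_pos h3, h2]
  · have hu : ¬ IsUnit (n : ZMod m) := fun hu =>
      h ((ZMod.coe_int_isUnit_iff_isCoprime n m).mp hu).symm
    rw [MulChar.map_nonunit _ hu, mul_zero]
    by_cases h3 : IsCoprime n ((m / χ.conductor : ℕ) : ℤ)
    · have h4 : ¬ IsCoprime n (χ.conductor : ℤ) := by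
        intro h4
        exact h (by rw [hmz]; exact h4.mul_right h3)
      have hu' : ¬ IsUnit (n : ZMod χ.conductor) := fun hu =>
        h4 ((ZMod.coe_int_isUnit_iff_isCoprime n χ.conductor).mp hu).symm
      rw [if_pos h3, MulChar.map_nonunit _ hu', mul_zero]
    · rw [if_neg h3]

open scoped Classical in
private theorem LSA_chars (m : ℕ) (hm : 0 < m) (F : ℕ → ∀ r : ℕ, DirichletCharacter ℂ r → ℝ)
    (hF : ∀ (s r : ℕ) (χ : DirichletCharacter ℂ r), 0 ≤ F s r χ) :
    ∑ χ : DirichletCharacter ℂ m, F (m / χ.conductor) χ.conductor χ.primitiveCharacter ≤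
      ∑ r ∈ m.divisors, ∑ χ : DirichletCharacter ℂ r with χ.IsPrimitive, F (m / r) r χ := by
  set T : Finset (Σ r : ℕ, DirichletCharacter ℂ r) :=
    (m.divisors).sigma
      (fun r => (univ : Finset (DirichletCharacter ℂ r)).filter (fun χ => χ.IsPrimitive)) with hT
  set g : DirichletCharacter ℂ m → (Σ r : ℕ, DirichletCharacter ℂ r) :=
    fun χ => ⟨χ.conductor, χ.primitiveCharacter⟩ with hg
  have hinj : Function.Injective g := by
    have hleft : ∀ χ : DirichletCharacter ℂ m,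
        (fun i : (Σ r : ℕ, DirichletCharacter ℂ r) =>
          if h : i.1 ∣ m then DirichletCharacter.changeLevel h i.2 else 1) (g χ) = χ := by
      intro χ
      simp only [hg]
      rw [dif_pos χ.conductor_dvd_level]
      exact χ.changeLevel_primitiveCharacter
    intro χ χ' h
    rw [← hleft χ, ← hleft χ', h]
  have e1 : ∑ χ : DirichletCharacter ℂ m, F (m / χ.conductor) χ.conductor χ.primitiveCharacter
      = ∑ i ∈ univ.image g, F (m / i.1) i.1 i.2 := by
    rw [sum_image (fun x _ y _ h => hinj h)]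
  have e2 : ∑ r ∈ m.divisors, ∑ χ : DirichletCharacter ℂ r with χ.IsPrimitive,
      F (m / r) r χ = ∑ i ∈ T, F (m / i.1) i.1 i.2 := by
    rw [hT, sum_sigma]
  rw [e1, e2]
  refine sum_le_sum_of_subset_of_nonneg ?_ (fun _ _ _ => hF _ _ _)
  intro i hi
  rw [mem_image] at hi
  obtain ⟨χ, -, rfl⟩ := hi
  rw [hT, mem_sigma, mem_filter, Nat.mem_divisors]
  exact ⟨⟨χ.conductor_dvd_level, hm.ne'⟩, mem_univ _, χ.primitiveCharacter_isPrimitive⟩

theorem LSA : LSA_stmt := by
  classical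
  intro D₁ c₁ c₂ S b
  -- the function of two variables
  set G : ℕ → ℕ → ℝ := fun k r => ∑ ψ : DirichletCharacter ℂ r with ψ.IsPrimitive,
    LSA_F c₁ c₂ S b k r ψ with hG
  have hF0 : ∀ k r (ψ : DirichletCharacter ℂ r), 0 ≤ LSA_F c₁ c₂ S b k r ψ := by
    intro k r ψ
    unfold LSA_F
    split_ifs <;> positivity
  have hG0 : ∀ k r, 0 ≤ G k r := fun k r => Finset.sum_nonneg fun ψ _ => hF0 _ _ _
  have h1 : ∀ D ∈ Icc 1 D₁, 1 / (Nat.totient D : ℝ) *
      ∑ χ : DirichletCharacter ℂ D with c₁ < χ.conductor ∧ χ.conductor ≤ c₂,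
        ‖∑ n ∈ S, b n * χ (n : ZMod D)‖ ^ 2 ≤
      ∑ k ∈ D.divisors, (fun D k => 1 / (Nat.totient k : ℝ) *
        (1 / (Nat.totient (D / k) : ℝ) * G k (D / k))) D k := by
    intro D hD
    rw [mem_Icc] at hD
    have hD0 : 0 < D := by omega
    have h2 : ∑ χ : DirichletCharacter ℂ D with c₁ < χ.conductor ∧ χ.conductor ≤ c₂,
        ‖∑ n ∈ S, b n * χ (n : ZMod D)‖ ^ 2 ≤ ∑ r ∈ D.divisors, G (D / r) r := by
      have h3 := LSA_chars D hD0 (LSA_F c₁ c₂ S b) hF0
      refine le_trans (le_of_eq ?_) h3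
      rw [sum_filter]
      refine sum_congr rfl fun χ _ => ?_
      unfold LSA_F
      by_cases hc : c₁ < χ.conductor ∧ χ.conductor ≤ c₂
      · rw [if_pos hc, if_pos hc]
        exact LSA_prim S b D χ
      · rw [if_neg hc, if_neg hc]
    have h4 : ∑ r ∈ D.divisors, G (D / r) r = ∑ k ∈ D.divisors, G k (D / k) := by
      rw [← Nat.sum_div_divisors D (fun k => G k (D / k))]
      refine sum_congr rfl fun r hr => ?_
      rw [Nat.mem_divisors] at hr
      rw [Nat.div_div_self hr.1 hr.2]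
    rw [h4] at h2
    calc 1 / (Nat.totient D : ℝ) *
        ∑ χ : DirichletCharacter ℂ D with c₁ < χ.conductor ∧ χ.conductor ≤ c₂,
          ‖∑ n ∈ S, b n * χ (n : ZMod D)‖ ^ 2
        ≤ 1 / (Nat.totient D : ℝ) * ∑ k ∈ D.divisors, G k (D / k) :=
          mul_le_mul_of_nonneg_left h2 (by positivity)
      _ = ∑ k ∈ D.divisors, 1 / (Nat.totient D : ℝ) * G k (D / k) := by rw [mul_sum]
      _ ≤ _ := by
          refine sum_le_sum fun k hk => ?_
          rw [Nat.mem_divisors] at hk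
          show _ ≤ 1 / (Nat.totient k : ℝ) * (1 / (Nat.totient (D / k) : ℝ) * G k (D / k))
          rw [← mul_assoc]
          refine mul_le_mul_of_nonneg_right ?_ (hG0 _ _)
          have hk0 : 0 < k := Nat.pos_of_dvd_of_pos hk.1 hD0
          have hr0 : 0 < D / k := Nat.div_pos (Nat.le_of_dvd hD0 hk.1) hk0
          have p1 : (0 : ℝ) < Nat.totient k := by exact_mod_cast Nat.totient_pos.mpr hk0
          have p2 : (0 : ℝ) < Nat.totient (D / k) := by exact_mod_cast Nat.totient_pos.mpr hr0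
          have p3 : (Nat.totient k : ℝ) * Nat.totient (D / k) ≤ Nat.totient D := by
            have := Nat.totient_super_multiplicative k (D / k)
            rw [Nat.mul_div_cancel' hk.1] at this
            exact_mod_cast this
          rw [one_div_mul_one_div]
          exact one_div_le_one_div_of_le (by positivity) p3
  refine (Finset.sum_le_sum h1).trans ?_
  have hIcc : ∀ n : ℕ, Icc 1 n = Ioc 0 n := fun n => by
    ext x
    rw [mem_Icc, mem_Ioc]
    omega
  rw [hIcc, Pool.Agent.helper85.BVP.sum_divisors_swap]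
  refine sum_le_sum fun k hk => ?_
  rw [mem_Ioc] at hk
  have h5 : ∑ r ∈ Ioc 0 (D₁ / k), (fun D k => 1 / (Nat.totient k : ℝ) *
        (1 / (Nat.totient (D / k) : ℝ) * G k (D / k))) (k * r) k =
      1 / (Nat.totient k : ℝ) * ∑ r ∈ Ioc 0 (D₁ / k), 1 / (Nat.totient r : ℝ) * G k r := by
    rw [mul_sum]
    refine sum_congr rfl fun r _ => ?_
    show 1 / (Nat.totient k : ℝ) * (1 / (Nat.totient (k * r / k) : ℝ) * G k (k * r / k)) = _
    rw [Nat.mul_div_cancel_left r hk.1]
  rw [h5]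
  refine mul_le_mul_of_nonneg_left ?_ (by positivity)
  have h6 : ∑ r ∈ Ioc 0 (D₁ / k), 1 / (Nat.totient r : ℝ) * G k r =
      ∑ r ∈ (Ioc 0 (D₁ / k)).filter (fun r => c₁ < r ∧ r ≤ c₂), 1 / (Nat.totient r : ℝ) * G k r := by
    symm
    refine sum_filter_of_ne fun r _ hr => ?_
    by_contra hc
    apply hr
    have h7 : G k r = 0 := by
      rw [hG]
      refine sum_eq_zero fun ψ _ => ?_
      unfold LSA_F
      rw [if_neg hc]
    rw [h7, mul_zero]
  rw [h6]
  have h8 : ∀ r ∈ (Ioc c₁ c₂).filter (fun r => r * k ≤ D₁), 1 / (Nat.totient r : ℝ) *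
      ∑ ψ : DirichletCharacter ℂ r with ψ.IsPrimitive,
        ‖∑ n ∈ S with IsCoprime n (k : ℤ), b n * ψ (n : ZMod r)‖ ^ 2 =
      1 / (Nat.totient r : ℝ) * G k r := by
    intro r hr
    rw [mem_filter, mem_Ioc] at hr
    congr 1
    refine sum_congr rfl fun ψ _ => ?_
    unfold LSA_F
    rw [if_pos hr.1]
  rw [sum_congr rfl h8]
  refine sum_le_sum_of_subset_of_nonneg ?_ (fun r _ _ => mul_nonneg (by positivity) (hG0 _ _))
  intro r hr
  rw [mem_filter, mem_Ioc] at hr
  rw [mem_filter, mem_Ioc]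
  refine ⟨hr.2, ?_⟩
  exact (Nat.le_div_iff_mul_le hk.1).mp hr.1.2

end Pool.Agent.FJ
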