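import Pool.Agent.helper95.FJ.SpecD

/-!
# Row LSM (MP_ad8ced_nt)
-/

set_option autoImplicit false

open Finset

namespace Pool.Agent.FJ

open Finset Pool.Agent.FI

open scoped Classical in
private theorem LSM_card (r : ℕ) (hr : 0 < r) :
    (#{ψ : DirichletCharacter ℂ r | ψ.IsPrimitive} : ℝ) ≤ Nat.totient r := by
  have : NeZero r := ⟨hr.ne'⟩
  have h1 : #{ψ : DirichletCharacter ℂ r | ψ.IsPrimitive} ≤ #(univ : Finset (DirichletCharacter ℂ r)) :=
    card_le_card (filter_subset _ _)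
  have h4 : #(univ : Finset (DirichletCharacter ℂ r)) = Nat.totient r := by
    rw [card_univ, ← Nat.card_eq_fintype_card]
    exact DirichletCharacter.card_eq_totient_of_hasEnoughRootsOfUnity ℂ r
  rw [h4] at h1
  exact_mod_cast h1

open scoped Classical in
/-- the sum over the cells, twisted -/
private noncomputable def LSM_g (x K : ℕ) (lam : ℤ → ℝ) (k r : ℕ) : ℝ :=
  1 / (Nat.totient r : ℝ) * ∑ ψ : DirichletCharacter ℂ r with ψ.IsPrimitive,
    ∑ i ∈ range K, ‖∑ n ∈ cl x K i with IsCoprime n (k : ℤ), (lam n : ℂ) * ψ (n : ZMod r)‖ ^ 2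

private theorem LSM_g0 (x K : ℕ) (lam : ℤ → ℝ) (k r : ℕ) : 0 ≤ LSM_g x K lam k r := by
  unfold LSM_g
  exact mul_nonneg (by positivity) (sum_nonneg fun _ _ => sum_nonneg fun _ _ => by positivity)

private theorem LSM_small (x K : ℕ) (lam : ℤ → ℝ) (Q : ℕ) (S : ℝ) (hS : 0 ≤ S)
    (hI : SIh x K Q S lam) (k r : ℕ) (hr : 1 ≤ r) (hr' : r ≤ Q) (hk : 1 ≤ k) (hk' : k ≤ x ^ 3) :
    LSM_g x K lam k r ≤ S := by
  classical
  unfold LSM_g
  have hφ : (0 : ℝ) < Nat.totient r := by exact_mod_cast Nat.totient_pos.mpr hr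
  have h1 : ∀ ψ ∈ (univ : Finset (DirichletCharacter ℂ r)).filter (fun ψ => ψ.IsPrimitive),
      ∑ i ∈ range K, ‖∑ n ∈ cl x K i with IsCoprime n (k : ℤ), (lam n : ℂ) * ψ (n : ZMod r)‖ ^ 2
        ≤ S := by
    intro ψ hψ
    exact hI r k hr (by exact_mod_cast hr') hk hk' ψ (mem_filter.1 hψ).2
  have h2 := Finset.sum_le_card_nsmul _ _ _ h1
  rw [nsmul_eq_mul] at h2
  calc 1 / (Nat.totient r : ℝ) * ∑ ψ : DirichletCharacter ℂ r with ψ.IsPrimitive,
        ∑ i ∈ range K, ‖∑ n ∈ cl x K i with IsCoprime n (k : ℤ), (lam n : ℂ) * ψ (n : ZMod r)‖ ^ 2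
      ≤ 1 / (Nat.totient r : ℝ) * ((Nat.totient r : ℝ) * S) := by
        refine mul_le_mul_of_nonneg_left (h2.trans ?_) (by positivity)
        exact mul_le_mul_of_nonneg_right (LSM_card r hr) hS
    _ = S := by field_simp

theorem LSM (hGPT : GPT_stmt) (hLSA : LSA_stmt) (hLSB : LSB_stmt) (hPHK : PHK_stmt) :
    LSM_stmt := by
  classical
  obtain ⟨CB, hCB, hLSB⟩ := hLSB
  obtain ⟨CP, hCP, hPHK⟩ := hPHK
  refine ⟨CP * (1 + 9 * CB), by positivity, ?_⟩
  intro x K D₁ R₀ R₁ hx hK hKx hD₁ hDx hR₀ M S lam hM hI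
  obtain ⟨g1, g2, g3, g4, g5, g6, g7, g8⟩ := hGPT x K hx hK
  have hM0 : 0 ≤ M := (abs_nonneg _).trans (hM 0)
  have hS : 0 ≤ S := by
    have h1 := hI 1 1 le_rfl (by exact_mod_cast hR₀) le_rfl (Nat.one_le_pow _ _ hx) 1
      (DirichletCharacter.isPrimitive_one_level_one)
    exact (sum_nonneg fun _ _ => by positivity).trans h1
  have hx0 : (0 : ℝ) < x := by exact_mod_cast hx
  have hK0 : (0 : ℝ) < K := by exact_mod_cast hK
  have hR0 : (0 : ℝ) < R₀ := by exact_mod_cast hR₀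
  -- the size of a cell
  have hcell : ∀ i < K, ((gp x K (i + 1) - gp x K i : ℕ) : ℝ) ≤ 3 * x / K := by
    intro i hi
    have h1 := g8 i hi
    have h2 : #(cl x K i) = gp x K (i + 1) - gp x K i := by
      unfold cl
      rw [Int.card_Ioc]
      have := g3 i (i + 1) (Nat.le_succ i)
      omega
    rw [h2] at h1
    have h3 : (1 : ℝ) ≤ x / K := by
      rw [le_div_iff₀ hK0, one_mul]
      exact_mod_cast hKx
    calc ((gp x K (i + 1) - gp x K i : ℕ) : ℝ) ≤ 2 * x / K + 1 := h1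
      _ ≤ 2 * x / K + x / K := by linarith
      _ = 3 * x / K := by ring
  -- step 1: the left side
  have hL : ∑ D ∈ Icc 1 D₁, 1 / (Nat.totient D : ℝ) *
      ∑ χ : DirichletCharacter ℂ D with χ.conductor ≤ R₁, ∑ i ∈ range K, ‖Fc x K lam χ i‖ ^ 2 =
      ∑ i ∈ range K, ∑ D ∈ Icc 1 D₁, 1 / (Nat.totient D : ℝ) *
        ∑ χ : DirichletCharacter ℂ D with 0 < χ.conductor ∧ χ.conductor ≤ R₁,
          ‖∑ n ∈ cl x K i, (lam n : ℂ) * χ (n : ZMod D)‖ ^ 2 := by
    rw [sum_comm]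
    refine sum_congr rfl fun D hD => ?_
    rw [← mul_sum]
    congr 1
    rw [sum_comm]
    refine sum_congr rfl fun i _ => ?_
    refine sum_congr ?_ fun χ _ => rfl
    ext χ
    simp only [mem_filter, mem_univ, true_and]
    have h1 : 0 < χ.conductor :=
      Nat.pos_of_dvd_of_pos χ.conductor_dvd_level (by rw [mem_Icc] at hD; omega)
    exact ⟨fun h => ⟨h1, h⟩, fun h => h.2⟩
  rw [hL]
  -- step 2: primitive characters
  have h2 : ∑ i ∈ range K, ∑ D ∈ Icc 1 D₁, 1 / (Nat.totient D : ℝ) *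
        ∑ χ : DirichletCharacter ℂ D with 0 < χ.conductor ∧ χ.conductor ≤ R₁,
          ‖∑ n ∈ cl x K i, (lam n : ℂ) * χ (n : ZMod D)‖ ^ 2 ≤
      ∑ k ∈ Icc 1 D₁, 1 / (Nat.totient k : ℝ) * ∑ r ∈ Ioc 0 R₁ with r * k ≤ D₁,
        LSM_g x K lam k r := by
    have h3 : ∑ k ∈ Icc 1 D₁, 1 / (Nat.totient k : ℝ) * ∑ r ∈ Ioc 0 R₁ with r * k ≤ D₁,
        LSM_g x K lam k r = ∑ i ∈ range K, ∑ k ∈ Icc 1 D₁, 1 / (Nat.totient k : ℝ) *
          ∑ r ∈ Ioc 0 R₁ with r * k ≤ D₁, 1 / (Nat.totient r : ℝ) *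
        ∑ ψ : DirichletCharacter ℂ r with ψ.IsPrimitive,
          ‖∑ n ∈ cl x K i with IsCoprime n (k : ℤ), (lam n : ℂ) * ψ (n : ZMod r)‖ ^ 2 := by
      rw [sum_comm (s := range K)]
      refine sum_congr rfl fun k _ => ?_
      rw [← mul_sum]
      congr 1
      rw [sum_comm (s := range K)]
      refine sum_congr rfl fun r _ => ?_
      rw [← mul_sum]
      unfold LSM_g
      congr 1
      rw [sum_comm]
    rw [h3]
    exact sum_le_sum fun i _ => hLSA D₁ 0 R₁ (cl x K i) (fun n => (lam n : ℂ))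
  refine h2.trans ?_
  -- step 3: one k
  set Y := (R₀ : ℝ) * S + 9 * CB * ((x / (K * R₀) + R₁) * (x * M ^ 2)) with hY
  have hk : ∀ k ∈ Icc 1 D₁, ∑ r ∈ Ioc 0 R₁ with r * k ≤ D₁, LSM_g x K lam k r ≤ Y := by
    intro k hk
    rw [mem_Icc] at hk
    have hsub : (Ioc 0 R₁).filter (fun r => r * k ≤ D₁) ⊆ Ioc 0 R₀ ∪ Ioc R₀ R₁ := by
      intro r hr
      rw [mem_filter, mem_Ioc] at hr
      rw [mem_union, mem_Ioc, mem_Ioc]
      omega
    have hlarge : ∑ r ∈ Ioc R₀ R₁, LSM_g x K lam k r ≤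
        9 * CB * ((x / (K * R₀) + R₁) * (x * M ^ 2)) := by
      have h4 : ∑ r ∈ Ioc R₀ R₁, LSM_g x K lam k r = ∑ i ∈ range K, ∑ r ∈ Ioc R₀ R₁,
          1 / (Nat.totient r : ℝ) * ∑ ψ : DirichletCharacter ℂ r with ψ.IsPrimitive,
            ‖∑ n ∈ Ioc (gp x K i : ℤ) (gp x K i + ((gp x K (i + 1) - gp x K i : ℕ) : ℤ)),
              (if IsCoprime n (k : ℤ) then (lam n : ℂ) else 0) * ψ (n : ZMod r)‖ ^ 2 := by
        rw [sum_comm (s := range K)]
        refine sum_congr rfl fun r _ => ?_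
        rw [← mul_sum]
        unfold LSM_g
        congr 1
        rw [sum_comm]
        refine sum_congr rfl fun i _ => ?_
        refine sum_congr rfl fun ψ _ => ?_
        congr 2
        rw [sum_filter]
        have h5 : (gp x K i : ℤ) + ((gp x K (i + 1) - gp x K i : ℕ) : ℤ) = gp x K (i + 1) := by
          have := g3 i (i + 1) (Nat.le_succ i)
          omega
        rw [h5]
        unfold cl
        refine sum_congr rfl fun n _ => ?_
        rw [ite_mul, zero_mul]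
      rw [h4]
      have h6 : ∀ i ∈ range K, ∑ r ∈ Ioc R₀ R₁,
          1 / (Nat.totient r : ℝ) * ∑ ψ : DirichletCharacter ℂ r with ψ.IsPrimitive,
            ‖∑ n ∈ Ioc (gp x K i : ℤ) (gp x K i + ((gp x K (i + 1) - gp x K i : ℕ) : ℤ)),
              (if IsCoprime n (k : ℤ) then (lam n : ℂ) else 0) * ψ (n : ZMod r)‖ ^ 2 ≤
          CB * (3 * x / K / R₀ + R₁) * (3 * x / K * M ^ 2) := by
        intro i hi
        rw [mem_range] at hi
        refine (hLSB R₁ R₀ (gp x K i) (gp x K (i + 1) - gp x K i)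
          (fun n => if IsCoprime n (k : ℤ) then (lam n : ℂ) else 0) hR₀).trans ?_
        have h7 := hcell i hi
        have h8 : ∑ n ∈ Ioc (gp x K i : ℤ) (gp x K i + ((gp x K (i + 1) - gp x K i : ℕ) : ℤ)),
            ‖(if IsCoprime n (k : ℤ) then (lam n : ℂ) else 0)‖ ^ 2 ≤ 3 * x / K * M ^ 2 := by
          have h9 : ∀ n ∈ Ioc (gp x K i : ℤ) (gp x K i + ((gp x K (i + 1) - gp x K i : ℕ) : ℤ)),
              ‖(if IsCoprime n (k : ℤ) then (lam n : ℂ) else 0)‖ ^ 2 ≤ M ^ 2 := by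
            intro n _
            split_ifs
            · rw [Complex.norm_real, Real.norm_eq_abs]
              exact pow_le_pow_left₀ (abs_nonneg _) (hM n) 2
            · rw [norm_zero, zero_pow (by norm_num)]
              positivity
          have h10 := Finset.sum_le_card_nsmul _ _ _ h9
          rw [nsmul_eq_mul, Int.card_Ioc] at h10
          have h11 : ((gp x K i : ℤ) + ((gp x K (i + 1) - gp x K i : ℕ) : ℤ) - gp x K i).toNat =
              gp x K (i + 1) - gp x K i := by omega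
          rw [h11] at h10
          exact h10.trans (mul_le_mul_of_nonneg_right h7 (by positivity))
        have h12 : ((gp x K (i + 1) - gp x K i : ℕ) : ℝ) / R₀ + R₁ ≤ 3 * x / K / R₀ + R₁ := by
          have := div_le_div_of_nonneg_right h7 hR0.le
          linarith
        refine mul_le_mul ?_ h8 (sum_nonneg fun _ _ => by positivity) (by positivity)
        exact mul_le_mul_of_nonneg_left h12 hCB.le
      have h13 := Finset.sum_le_card_nsmul _ _ _ h6
      rw [nsmul_eq_mul, card_range] at h13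
      refine h13.trans ?_
      have h14 : (K : ℝ) * (CB * (3 * x / K / R₀ + R₁) * (3 * x / K * M ^ 2)) =
          CB * 3 * (3 * (x / (K * R₀)) + R₁) * (x * M ^ 2) := by
        field_simp
      rw [h14]
      have h15 : 3 * ((x : ℝ) / (K * R₀)) + R₁ ≤ 3 * (x / (K * R₀) + R₁) := by
        have : (0 : ℝ) ≤ R₁ := by positivity
        linarith
      calc CB * 3 * (3 * ((x : ℝ) / (K * R₀)) + R₁) * (x * M ^ 2)
          ≤ CB * 3 * (3 * (x / (K * R₀) + R₁)) * (x * M ^ 2) := by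
            refine mul_le_mul_of_nonneg_right ?_ (by positivity)
            exact mul_le_mul_of_nonneg_left h15 (by positivity)
        _ = _ := by ring
    calc ∑ r ∈ Ioc 0 R₁ with r * k ≤ D₁, LSM_g x K lam k r
        ≤ ∑ r ∈ Ioc 0 R₀ ∪ Ioc R₀ R₁, LSM_g x K lam k r :=
          sum_le_sum_of_subset_of_nonneg hsub fun r _ _ => LSM_g0 x K lam k r
      _ ≤ ∑ r ∈ Ioc 0 R₀, LSM_g x K lam k r + ∑ r ∈ Ioc R₀ R₁, LSM_g x K lam k r := by
          rw [← Finset.sum_union_inter]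
          have : 0 ≤ ∑ r ∈ Ioc 0 R₀ ∩ Ioc R₀ R₁, LSM_g x K lam k r :=
            sum_nonneg fun r _ => LSM_g0 x K lam k r
          linarith
      _ ≤ Y := by
          refine add_le_add ?_ hlarge
          have h16 : ∀ r ∈ Ioc 0 R₀, LSM_g x K lam k r ≤ S := by
            intro r hr
            rw [mem_Ioc] at hr
            exact LSM_small x K lam R₀ S hS hI k r hr.1 hr.2 hk.1 (hk.2.trans hDx)
          have h17 := Finset.sum_le_card_nsmul _ _ _ h16
          rw [nsmul_eq_mul, Nat.card_Ioc, Nat.sub_zero] at h17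
          exact h17
  have hY0 : 0 ≤ Y := by positivity
  have hlD : 0 ≤ Real.log D₁ := Real.log_natCast_nonneg D₁
  calc ∑ k ∈ Icc 1 D₁, 1 / (Nat.totient k : ℝ) * ∑ r ∈ Ioc 0 R₁ with r * k ≤ D₁,
        LSM_g x K lam k r
      ≤ ∑ k ∈ Icc 1 D₁, 1 / (Nat.totient k : ℝ) * Y :=
        sum_le_sum fun k hk' => mul_le_mul_of_nonneg_left (hk k hk') (by positivity)
    _ = (∑ k ∈ Icc 1 D₁, 1 / (Nat.totient k : ℝ)) * Y := by rw [sum_mul]
    _ ≤ (CP * (1 + Real.log D₁)) * Y := mul_le_mul_of_nonneg_right (hPHK D₁ hD₁) hY0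
    _ ≤ (CP * (1 + Real.log D₁)) * ((1 + 9 * CB) *
          (R₀ * S + (x / (K * R₀) + R₁) * (x * M ^ 2))) := by
        refine mul_le_mul_of_nonneg_left ?_ (by positivity)
        have e1 : 0 ≤ (R₀ : ℝ) * S := by positivity
        have e2 : 0 ≤ ((x : ℝ) / (K * R₀) + R₁) * (x * M ^ 2) := by positivity
        rw [hY]
        nlinarith [mul_nonneg hCB.le e1]
    _ = _ := by ring

end Pool.Agent.FJ
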