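import Pool.Agent.helper95.FJ.SpecD
import Pool.Agent.helper85.BVP.Tau

/-!
# Row LSQ (MP_ad8ced_nt)
-/

set_option autoImplicit false

open Finset

namespace Pool.Agent.FJ

open Finset Pool.Agent.FI

open scoped Classical in
/-- the index set -/
private noncomputable def LSQ_T (x K₃ K₄ b j : ℕ) : Finset ((ℕ × ℕ) × (ℤ × ℤ)) :=
  {t ∈ (Ico (b * K₄) ((b + 1) * K₄) ×ˢ range (K₃ * K₄)) ×ˢ
      (Ioc (x : ℤ) (2 * x) ×ˢ Ioc (x : ℤ) (2 * x)) |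
    t.1.1 + t.1.2 = j ∧ t.2.1 ∈ cl x (K₃ * K₄) t.1.1 ∧ t.2.2 ∈ cl x (K₃ * K₄) t.1.2}

open scoped Classical in
/-- the coefficients -/
private noncomputable def LSQ_a (x K₃ K₄ : ℕ) (lam : ℤ → ℝ) (b j : ℕ) (n : ℤ) : ℂ :=
  ∑ t ∈ LSQ_T x K₃ K₄ b j with t.2.1 * t.2.2 = n, (lam t.2.1 : ℂ) * (lam t.2.2 : ℂ)

private theorem LSQ_memT (x K₃ K₄ b j : ℕ) (t : (ℕ × ℕ) × (ℤ × ℤ)) (ht : t ∈ LSQ_T x K₃ K₄ b j) :
    ((b * K₄ ≤ t.1.1 ∧ t.1.1 < (b + 1) * K₄) ∧ t.1.2 < K₃ * K₄) ∧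
      (((x : ℤ) < t.2.1 ∧ t.2.1 ≤ 2 * x) ∧ ((x : ℤ) < t.2.2 ∧ t.2.2 ≤ 2 * x)) ∧
      t.1.1 + t.1.2 = j ∧ t.2.1 ∈ cl x (K₃ * K₄) t.1.1 ∧ t.2.2 ∈ cl x (K₃ * K₄) t.1.2 := by
  classical
  unfold LSQ_T at ht
  rw [mem_filter, mem_product, mem_product, mem_product, mem_Ico, mem_range, mem_Ioc, mem_Ioc] at ht
  exact ⟨ht.1.1, ht.1.2, ht.2⟩

private theorem LSQ_Hc (x K₃ K₄ : ℕ) (lam : ℤ → ℝ) (b j : ℕ) (hb : b < K₃)
    (h7 : ∀ i < K₃ * K₄, ∀ l : ℤ, l ∈ cl x (K₃ * K₄) i → (x : ℤ) < l ∧ l ≤ 2 * x)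
    {D : ℕ} (χ : DirichletCharacter ℂ D) :
    Hc x K₃ K₄ lam b j χ = ∑ t ∈ LSQ_T x K₃ K₄ b j,
      (lam t.2.1 : ℂ) * (lam t.2.2 : ℂ) * χ ((t.2.1 * t.2.2 : ℤ) : ZMod D) := by
  classical
  have hcl : ∀ i < K₃ * K₄, ∀ f : ℤ → ℂ, ∑ l ∈ cl x (K₃ * K₄) i, f l =
      ∑ l ∈ Ioc (x : ℤ) (2 * x), if l ∈ cl x (K₃ * K₄) i then f l else 0 := by
    intro i hi f
    rw [← sum_filter]
    refine sum_congr ?_ fun _ _ => rfl
    ext l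
    rw [mem_filter, mem_Ioc]
    exact ⟨fun h => ⟨h7 i hi l h, h⟩, fun h => h.2⟩
  unfold Hc Fc LSQ_T
  rw [sum_filter, sum_product, sum_product]
  refine sum_congr rfl fun i hi => ?_
  rw [mem_Ico] at hi
  have hiK : i < K₃ * K₄ := by
    have : (b + 1) * K₄ ≤ K₃ * K₄ := Nat.mul_le_mul_right _ hb
    omega
  rw [sum_filter]
  refine sum_congr rfl fun i' hi' => ?_
  rw [mem_range] at hi'
  by_cases hj : i + i' = j
  · rw [if_pos hj, hcl i hiK, hcl i' hi', sum_mul_sum, sum_product]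
    refine sum_congr rfl fun l₁ _ => sum_congr rfl fun l₂ _ => ?_
    by_cases h1 : l₁ ∈ cl x (K₃ * K₄) i
    · by_cases h2 : l₂ ∈ cl x (K₃ * K₄) i'
      · rw [if_pos h1, if_pos h2, if_pos ⟨hj, h1, h2⟩]
        push_cast
        rw [map_mul]
        ring
      · rw [if_neg h2, mul_zero, if_neg fun h => h2 h.2.2]
    · rw [if_neg h1, zero_mul, if_neg fun h => h1 h.2.1]
  · rw [if_neg hj]
    symm
    exact sum_eq_zero fun p _ => if_neg fun h => hj h.1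

private theorem LSQ_fib (x K₃ K₄ : ℕ) (lam : ℤ → ℝ) (b j : ℕ) (S : Finset ℤ)
    (hS : ∀ t ∈ LSQ_T x K₃ K₄ b j, t.2.1 * t.2.2 ∈ S) {D : ℕ} (χ : DirichletCharacter ℂ D) :
    ∑ t ∈ LSQ_T x K₃ K₄ b j, (lam t.2.1 : ℂ) * (lam t.2.2 : ℂ) *
        χ ((t.2.1 * t.2.2 : ℤ) : ZMod D) =
      ∑ n ∈ S, LSQ_a x K₃ K₄ lam b j n * χ (n : ZMod D) := by
  classical
  rw [← sum_fiberwise_of_maps_to hS]
  refine sum_congr rfl fun n _ => ?_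
  unfold LSQ_a
  rw [sum_mul]
  refine sum_congr rfl fun t ht => ?_
  rw [mem_filter] at ht
  rw [ht.2]

/-- the real end points -/
private theorem LSQ_int (x K₃ K₄ b j : ℕ) (hK : 1 ≤ K₃ * K₄)
    (h4 : ∀ (i : ℕ) (l : ℤ), l ∈ cl x (K₃ * K₄) i ↔
      (x : ℝ) * (2 : ℝ) ^ ((i : ℝ) / (K₃ * K₄ : ℕ)) < l ∧
        (l : ℝ) ≤ (x : ℝ) * (2 : ℝ) ^ (((i : ℝ) + 1) / (K₃ * K₄ : ℕ)))
    (hj : j < 2 * (K₃ * K₄)) :
    ∃ M₀ N₀ : ℕ, (N₀ : ℝ) ≤ 12 * x ^ 2 / (K₃ * K₄ : ℕ) + 1 ∧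
      ∀ t ∈ LSQ_T x K₃ K₄ b j, t.2.1 * t.2.2 ∈ Ioc (M₀ : ℤ) (M₀ + N₀) := by
  have hKr : (0 : ℝ) < (K₃ * K₄ : ℕ) := by exact_mod_cast hK
  set K : ℕ := K₃ * K₄ with hKdef
  set y₁ : ℝ := (x : ℝ) ^ 2 * (2 : ℝ) ^ ((j : ℝ) / K) with hy₁
  set y₂ : ℝ := (x : ℝ) ^ 2 * (2 : ℝ) ^ (((j : ℝ) + 2) / K) with hy₂
  have h10 : 0 ≤ y₁ := by positivity
  have h20 : 0 ≤ y₂ := by positivity
  have hpow : (2 : ℝ) ^ (((j : ℝ) + 2) / K) = (2 : ℝ) ^ ((j : ℝ) / K) * (2 : ℝ) ^ ((2 : ℝ) / K) := by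
    rw [← Real.rpow_add (by norm_num)]
    congr 1
    ring
  have hb1 : (2 : ℝ) ^ ((2 : ℝ) / K) ≤ 1 + 3 / K := by
    have h1 : (2 : ℝ) ^ ((2 : ℝ) / K) = (1 + 3 : ℝ) ^ ((1 : ℝ) / K) := by
      rw [show (1 + 3 : ℝ) = (2 : ℝ) ^ (2 : ℝ) by norm_num, ← Real.rpow_mul (by norm_num)]
      congr 1
      ring
    rw [h1]
    have h2 : (1 : ℝ) / K ≤ 1 := by
      rw [div_le_one hKr]
      exact_mod_cast hK
    have h3 := _root_.rpow_one_add_le_one_add_mul_self (s := 3) (by norm_num) (p := (1 : ℝ) / K)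
      (by positivity) h2
    calc (1 + 3 : ℝ) ^ ((1 : ℝ) / K) ≤ 1 + 1 / K * 3 := h3
      _ = 1 + 3 / K := by ring
  have hb2 : (1 : ℝ) ≤ (2 : ℝ) ^ ((2 : ℝ) / K) :=
    Real.one_le_rpow (by norm_num) (by positivity)
  have hb3 : (2 : ℝ) ^ ((j : ℝ) / K) ≤ 4 := by
    have h1 : (j : ℝ) / K ≤ 2 := by
      rw [div_le_iff₀ hKr]
      exact_mod_cast hj.le
    calc (2 : ℝ) ^ ((j : ℝ) / K) ≤ (2 : ℝ) ^ (2 : ℝ) :=
          Real.rpow_le_rpow_of_exponent_le (by norm_num) h1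
      _ = 4 := by norm_num
  have h12 : y₁ ≤ y₂ := by
    rw [hy₁, hy₂, hpow]
    have h1 : 0 ≤ (2 : ℝ) ^ ((j : ℝ) / K) := by positivity
    nlinarith [mul_nonneg (sq_nonneg (x : ℝ)) h1]
  have hfl : ⌊y₁⌋₊ ≤ ⌊y₂⌋₊ := Nat.floor_le_floor h12
  refine ⟨⌊y₁⌋₊, ⌊y₂⌋₊ - ⌊y₁⌋₊, ?_, ?_⟩
  · rw [Nat.cast_sub hfl]
    have h1 := Nat.floor_le h20
    have h2 := Nat.lt_floor_add_one y₁
    have h3 : y₂ - y₁ ≤ 12 * x ^ 2 / K := by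
      have h5 : y₂ - y₁ = (x : ℝ) ^ 2 * (2 : ℝ) ^ ((j : ℝ) / K) * ((2 : ℝ) ^ ((2 : ℝ) / K) - 1) := by
        rw [hy₁, hy₂, hpow]
        ring
      rw [h5]
      calc (x : ℝ) ^ 2 * (2 : ℝ) ^ ((j : ℝ) / K) * ((2 : ℝ) ^ ((2 : ℝ) / K) - 1)
          ≤ (x : ℝ) ^ 2 * 4 * ((3 : ℝ) / K) := by
            refine mul_le_mul ?_ (by linarith) (by linarith) (by positivity)
            exact mul_le_mul_of_nonneg_left hb3 (by positivity)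
        _ = 12 * (x : ℝ) ^ 2 / K := by ring
    linarith
  · intro t ht
    obtain ⟨-, ⟨⟨a1, a2⟩, a3, a4⟩, hs, c1, c2⟩ := LSQ_memT x K₃ K₄ b j t ht
    rw [← hKdef] at c1 c2
    obtain ⟨d1, d2⟩ := (h4 t.1.1 t.2.1).mp c1
    obtain ⟨e1, e2⟩ := (h4 t.1.2 t.2.2).mp c2
    have hsr : (t.1.1 : ℝ) + t.1.2 = j := by exact_mod_cast hs
    have p1 : (0 : ℝ) ≤ (x : ℝ) * (2 : ℝ) ^ ((t.1.1 : ℝ) / K) := by positivity
    have p2 : (0 : ℝ) ≤ (x : ℝ) * (2 : ℝ) ^ ((t.1.2 : ℝ) / K) := by positivity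
    have q1 : y₁ < ((t.2.1 * t.2.2 : ℤ) : ℝ) := by
      have h5 : y₁ = ((x : ℝ) * (2 : ℝ) ^ ((t.1.1 : ℝ) / K)) *
          ((x : ℝ) * (2 : ℝ) ^ ((t.1.2 : ℝ) / K)) := by
        rw [hy₁, ← hsr, add_div, Real.rpow_add (by norm_num)]
        ring
      rw [h5]
      push_cast
      exact mul_lt_mul'' d1 e1 p1 p2
    have q2 : ((t.2.1 * t.2.2 : ℤ) : ℝ) ≤ y₂ := by
      have h5 : y₂ = ((x : ℝ) * (2 : ℝ) ^ (((t.1.1 : ℝ) + 1) / K)) *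
          ((x : ℝ) * (2 : ℝ) ^ (((t.1.2 : ℝ) + 1) / K)) := by
        have h6 : ((j : ℝ) + 2) / K = ((t.1.1 : ℝ) + 1) / K + ((t.1.2 : ℝ) + 1) / K := by
          rw [← hsr]
          ring
        rw [hy₂, h6, Real.rpow_add (by norm_num)]
        ring
      rw [h5]
      push_cast
      have hx0 : (0 : ℤ) ≤ x := Int.natCast_nonneg x
      have p3 : (0 : ℝ) ≤ (t.2.2 : ℝ) := by
        have : (0 : ℤ) ≤ t.2.2 := by omega
        exact_mod_cast this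
      exact mul_le_mul d2 e2 p3 (by positivity)
    rw [mem_Ioc]
    constructor
    · have h7 : ((⌊y₁⌋₊ : ℤ) : ℝ) < ((t.2.1 * t.2.2 : ℤ) : ℝ) := by
        have := Nat.floor_le h10
        calc ((⌊y₁⌋₊ : ℤ) : ℝ) = (⌊y₁⌋₊ : ℝ) := by push_cast; rfl
          _ ≤ y₁ := this
          _ < _ := q1
      exact_mod_cast h7
    · have h8 : (0 : ℤ) ≤ t.2.1 * t.2.2 := by
        have hx0 : (0 : ℤ) ≤ x := Int.natCast_nonneg x
        exact mul_nonneg (by omega) (by omega)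
      obtain ⟨n, hn⟩ := Int.eq_ofNat_of_zero_le h8
      rw [hn] at q2 ⊢
      have h9 : n ≤ ⌊y₂⌋₊ := Nat.le_floor (by exact_mod_cast q2)
      have h11 : ((⌊y₂⌋₊ - ⌊y₁⌋₊ : ℕ) : ℤ) = (⌊y₂⌋₊ : ℤ) - ⌊y₁⌋₊ := by omega
      rw [h11]
      have : (n : ℤ) ≤ (⌊y₂⌋₊ : ℤ) := by exact_mod_cast h9
      linarith

/-- the number of factorisations -/
private theorem LSQ_cnt (x K₃ K₄ b : ℕ) (n : ℕ) (hn : 0 < n) (J : Finset ℕ)
    (h6 : ∀ i i' : ℕ, ∀ l : ℤ, l ∈ cl x (K₃ * K₄) i → l ∈ cl x (K₃ * K₄) i' → i = i') :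
    ∑ j ∈ J, #{t ∈ LSQ_T x K₃ K₄ b j | t.2.1 * t.2.2 = (n : ℤ)} ≤ #n.divisors := by
  classical
  rw [← card_sigma]
  have hx0 : (0 : ℤ) ≤ x := Int.natCast_nonneg x
  refine card_le_card_of_injOn (fun s => s.2.2.1.toNat) ?_ ?_
  · intro s hs
    rw [mem_coe, mem_sigma, mem_filter] at hs
    obtain ⟨-, ⟨⟨a1, a2⟩, a3, a4⟩, -⟩ := LSQ_memT x K₃ K₄ b s.1 s.2 hs.2.1
    rw [mem_coe, Nat.mem_divisors]
    refine ⟨?_, hn.ne'⟩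
    have h1 : (s.2.2.1.toNat : ℤ) = s.2.2.1 := Int.toNat_of_nonneg (by omega)
    have h2 : (s.2.2.1.toNat : ℤ) ∣ (n : ℤ) := by
      rw [h1, ← hs.2.2]
      exact dvd_mul_right _ _
    exact_mod_cast h2
  · intro s hs s' hs' h
    rw [mem_coe, mem_sigma, mem_filter] at hs hs'
    obtain ⟨-, ⟨⟨a1, a2⟩, a3, a4⟩, as, ac1, ac2⟩ := LSQ_memT x K₃ K₄ b s.1 s.2 hs.2.1
    obtain ⟨-, ⟨⟨b1, b2⟩, b3, b4⟩, bs, bc1, bc2⟩ := LSQ_memT x K₃ K₄ b s'.1 s'.2 hs'.2.1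
    have h1 : (s.2.2.1.toNat : ℤ) = s.2.2.1 := Int.toNat_of_nonneg (by omega)
    have h2 : (s'.2.2.1.toNat : ℤ) = s'.2.2.1 := Int.toNat_of_nonneg (by omega)
    have h3 : s.2.2.1 = s'.2.2.1 := by
      rw [← h1, ← h2]
      exact congrArg _ h
    have h4 : s.2.2.2 = s'.2.2.2 := by
      have h5 := hs.2.2
      have h7 := hs'.2.2
      rw [h3] at h5
      rw [← h7] at h5
      exact mul_left_cancel₀ (by omega) h5
    have h8 : s.2.1.1 = s'.2.1.1 := h6 _ _ s.2.2.1 ac1 (by rw [h3]; exact bc1)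
    have h9 : s.2.1.2 = s'.2.1.2 := h6 _ _ s.2.2.2 ac2 (by rw [h4]; exact bc2)
    have h10 : s.1 = s'.1 := by rw [← as, ← bs, h8, h9]
    obtain ⟨j, ⟨i, i'⟩, l, l'⟩ := s
    obtain ⟨j', ⟨k, k'⟩, m, m'⟩ := s'
    dsimp only at h3 h4 h8 h9 h10
    subst h3 h4 h8 h9 h10
    rfl

private theorem LSQ_asq (x K₃ K₄ b : ℕ) (lam : ℤ → ℝ) (M : ℝ) (hM : ∀ l, |lam l| ≤ M) (n : ℕ)
    (hn : 0 < n) (J : Finset ℕ)
    (h6 : ∀ i i' : ℕ, ∀ l : ℤ, l ∈ cl x (K₃ * K₄) i → l ∈ cl x (K₃ * K₄) i' → i = i') :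
    ∑ j ∈ J, ‖LSQ_a x K₃ K₄ lam b j n‖ ^ 2 ≤ M ^ 4 * Pool.Agent.helper85.BVP.tau n ^ 2 := by
  classical
  have hM0 : 0 ≤ M := (abs_nonneg _).trans (hM 0)
  have h1 : ∀ j, ‖LSQ_a x K₃ K₄ lam b j n‖ ≤
      M ^ 2 * #{t ∈ LSQ_T x K₃ K₄ b j | t.2.1 * t.2.2 = (n : ℤ)} := by
    intro j
    unfold LSQ_a
    have h2 : ∀ t ∈ (LSQ_T x K₃ K₄ b j).filter (fun t => t.2.1 * t.2.2 = (n : ℤ)),
        ‖(lam t.2.1 : ℂ) * (lam t.2.2 : ℂ)‖ ≤ M ^ 2 := by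
      intro p _
      rw [norm_mul, Complex.norm_real, Complex.norm_real, Real.norm_eq_abs, Real.norm_eq_abs, sq]
      exact mul_le_mul (hM _) (hM _) (abs_nonneg _) hM0
    refine (norm_sum_le_of_le _ h2).trans ?_
    rw [Finset.sum_const, nsmul_eq_mul, mul_comm]
  have h2 : ∑ j ∈ J, ‖LSQ_a x K₃ K₄ lam b j n‖ ^ 2 ≤ (∑ j ∈ J, ‖LSQ_a x K₃ K₄ lam b j n‖) ^ 2 :=
    Finset.sum_sq_le_sq_sum_of_nonneg fun _ _ => norm_nonneg _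
  have h3 : ∑ j ∈ J, ‖LSQ_a x K₃ K₄ lam b j n‖ ≤ M ^ 2 * Pool.Agent.helper85.BVP.tau n := by
    refine (sum_le_sum fun j _ => h1 j).trans ?_
    rw [← mul_sum]
    refine mul_le_mul_of_nonneg_left ?_ (by positivity)
    have h4 := LSQ_cnt x K₃ K₄ b n hn J h6
    have h5 : Pool.Agent.helper85.BVP.tau n = (#n.divisors : ℝ) := rfl
    rw [h5]
    exact_mod_cast h4
  calc ∑ j ∈ J, ‖LSQ_a x K₃ K₄ lam b j n‖ ^ 2 ≤ (∑ j ∈ J, ‖LSQ_a x K₃ K₄ lam b j n‖) ^ 2 := h2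
    _ ≤ (M ^ 2 * Pool.Agent.helper85.BVP.tau n) ^ 2 :=
        pow_le_pow_left₀ (sum_nonneg fun _ _ => norm_nonneg _) h3 2
    _ = _ := by ring

private theorem LSQ_restrict (x K₃ K₄ b j : ℕ) (lam : ℤ → ℝ) (S : Finset ℤ) :
    ∑ n ∈ S, ‖LSQ_a x K₃ K₄ lam b j n‖ ^ 2 ≤
      ∑ n ∈ Ioc (0 : ℕ) (4 * x ^ 2 : ℕ), ‖LSQ_a x K₃ K₄ lam b j (n : ℤ)‖ ^ 2 := by
  classical
  have h1 : ∑ n ∈ Ioc (0 : ℕ) (4 * x ^ 2 : ℕ), ‖LSQ_a x K₃ K₄ lam b j (n : ℤ)‖ ^ 2 =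
      ∑ n ∈ (Ioc (0 : ℕ) (4 * x ^ 2 : ℕ)).image (fun n : ℕ => (n : ℤ)),
        ‖LSQ_a x K₃ K₄ lam b j n‖ ^ 2 := by
    rw [sum_image]
    intro a _ c _ h
    exact Int.ofNat_inj.mp h
  rw [h1, ← sum_filter_ne_zero]
  refine sum_le_sum_of_subset_of_nonneg ?_ fun _ _ _ => by positivity
  intro n hn
  rw [mem_filter] at hn
  have h2 : LSQ_a x K₃ K₄ lam b j n ≠ 0 := by
    intro h
    apply hn.2
    rw [h, norm_zero, zero_pow (by norm_num)]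
  have h3 : ∃ t ∈ LSQ_T x K₃ K₄ b j, t.2.1 * t.2.2 = n := by
    by_contra hc
    push Not at hc
    apply h2
    unfold LSQ_a
    rw [filter_false_of_mem hc, sum_empty]
  obtain ⟨t, ht, htn⟩ := h3
  obtain ⟨-, ⟨⟨a1, a2⟩, a3, a4⟩, -⟩ := LSQ_memT x K₃ K₄ b j t ht
  have hx0 : (0 : ℤ) ≤ x := Int.natCast_nonneg x
  have h4 : 0 < n := by
    rw [← htn]
    exact mul_pos (by omega) (by omega)
  have h5 : n ≤ 4 * (x : ℤ) ^ 2 := by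
    rw [← htn]
    calc t.2.1 * t.2.2 ≤ (2 * x) * (2 * x) := mul_le_mul a2 a4 (by omega) (by omega)
      _ = 4 * (x : ℤ) ^ 2 := by ring
  rw [mem_image]
  refine ⟨n.toNat, ?_, Int.toNat_of_nonneg h4.le⟩
  rw [mem_Ioc]
  constructor
  · omega
  · have h6 : (n.toNat : ℤ) ≤ ((4 * x ^ 2 : ℕ) : ℤ) := by
      rw [Int.toNat_of_nonneg h4.le]
      push_cast
      exact h5
    exact_mod_cast h6

theorem LSQ (hGPT : GPT_stmt) (hLSA : LSA_stmt) (hLSB : LSB_stmt) (hPHK : PHK_stmt) :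
    LSQ_stmt := by
  classical
  obtain ⟨CB, hCB, hLSB⟩ := hLSB
  obtain ⟨CP, hCP, hPHK⟩ := hPHK
  refine ⟨CP * (12 * CB) * 108, by positivity, ?_⟩
  intro x K₃ K₄ D₁ R₁ hx hK₃ hK₄ hD₁ hR₁ M lam hM
  have hK : 1 ≤ K₃ * K₄ := Nat.mul_pos hK₃ hK₄
  obtain ⟨g1, g2, g3, g4, g5, g6, g7, g8⟩ := hGPT x (K₃ * K₄) hx hK
  have hM0 : 0 ≤ M := (abs_nonneg _).trans (hM 0)
  have hx1 : (1 : ℝ) ≤ x := by exact_mod_cast hx
  have hlx : 0 ≤ Real.log x := Real.log_nonneg hx1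
  have hKr : (0 : ℝ) < (K₃ * K₄ : ℕ) := by exact_mod_cast hK
  have hR0 : (0 : ℝ) < R₁ := by exact_mod_cast hR₁
  have hR1 : (1 : ℝ) ≤ R₁ := by exact_mod_cast hR₁
  have hD1 : (1 : ℝ) ≤ D₁ := by exact_mod_cast hD₁
  have hlD : 0 ≤ Real.log D₁ := Real.log_natCast_nonneg D₁
  set W : ℝ := (x : ℝ) ^ 2 / (K₃ * K₄ * R₁) + D₁ with hW
  have hW0 : 0 ≤ W := by positivity
  set X : ℕ := 4 * x ^ 2 with hX
  -- one pair (b, j)
  have hbj : ∀ b < K₃, ∀ j < 2 * (K₃ * K₄), ∑ D ∈ Icc 1 D₁, 1 / (Nat.totient D : ℝ) *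
      ∑ χ : DirichletCharacter ℂ D with R₁ < χ.conductor, ‖Hc x K₃ K₄ lam b j χ‖ ^ 2 ≤
      CP * (1 + Real.log D₁) * (12 * CB * W) *
        ∑ n ∈ Ioc 0 X, ‖LSQ_a x K₃ K₄ lam b j (n : ℤ)‖ ^ 2 := by
    intro b hb j hj
    obtain ⟨M₀, N₀, hN₀, hmem⟩ := LSQ_int x K₃ K₄ b j hK g4 hj
    set A : ℤ → ℂ := LSQ_a x K₃ K₄ lam b j with hA
    set Sa : ℝ := ∑ n ∈ Ioc 0 X, ‖A (n : ℤ)‖ ^ 2 with hSa
    have hSa0 : 0 ≤ Sa := sum_nonneg fun _ _ => by positivity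
    have h1 : ∑ D ∈ Icc 1 D₁, 1 / (Nat.totient D : ℝ) *
        ∑ χ : DirichletCharacter ℂ D with R₁ < χ.conductor, ‖Hc x K₃ K₄ lam b j χ‖ ^ 2 =
        ∑ D ∈ Icc 1 D₁, 1 / (Nat.totient D : ℝ) *
        ∑ χ : DirichletCharacter ℂ D with R₁ < χ.conductor ∧ χ.conductor ≤ D₁,
          ‖∑ n ∈ Ioc (M₀ : ℤ) (M₀ + N₀), A n * χ (n : ZMod D)‖ ^ 2 := by
      refine sum_congr rfl fun D hD => ?_
      rw [mem_Icc] at hD
      congr 1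
      refine sum_congr ?_ fun χ _ => ?_
      · ext χ
        simp only [mem_filter, mem_univ, true_and]
        have h2 : χ.conductor ≤ D₁ :=
          (Nat.le_of_dvd (by omega) χ.conductor_dvd_level).trans hD.2
        exact ⟨fun h => ⟨h, h2⟩, fun h => h.1⟩
      · rw [LSQ_Hc x K₃ K₄ lam b j hb g7 χ, LSQ_fib x K₃ K₄ lam b j _ hmem χ]
    rw [h1]
    refine (hLSA D₁ R₁ D₁ (Ioc (M₀ : ℤ) (M₀ + N₀)) A).trans ?_
    have hk : ∀ k ∈ Icc 1 D₁, ∑ r ∈ Ioc R₁ D₁ with r * k ≤ D₁, 1 / (Nat.totient r : ℝ) *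
        ∑ ψ : DirichletCharacter ℂ r with ψ.IsPrimitive,
          ‖∑ n ∈ Ioc (M₀ : ℤ) (M₀ + N₀) with IsCoprime n (k : ℤ), A n * ψ (n : ZMod r)‖ ^ 2 ≤
        12 * CB * W * Sa := by
      intro k _
      have h2 : ∑ r ∈ Ioc R₁ D₁ with r * k ≤ D₁, 1 / (Nat.totient r : ℝ) *
          ∑ ψ : DirichletCharacter ℂ r with ψ.IsPrimitive,
            ‖∑ n ∈ Ioc (M₀ : ℤ) (M₀ + N₀) with IsCoprime n (k : ℤ), A n * ψ (n : ZMod r)‖ ^ 2 ≤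
          ∑ r ∈ Ioc R₁ D₁, 1 / (Nat.totient r : ℝ) *
          ∑ ψ : DirichletCharacter ℂ r with ψ.IsPrimitive,
            ‖∑ n ∈ Ioc (M₀ : ℤ) (M₀ + N₀), (if IsCoprime n (k : ℤ) then A n else 0) *
              ψ (n : ZMod r)‖ ^ 2 := by
        have h3 : ∀ r ∈ (Ioc R₁ D₁).filter (fun r => r * k ≤ D₁), 1 / (Nat.totient r : ℝ) *
            ∑ ψ : DirichletCharacter ℂ r with ψ.IsPrimitive,
              ‖∑ n ∈ Ioc (M₀ : ℤ) (M₀ + N₀) with IsCoprime n (k : ℤ), A n * ψ (n : ZMod r)‖ ^ 2 =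
            1 / (Nat.totient r : ℝ) *
            ∑ ψ : DirichletCharacter ℂ r with ψ.IsPrimitive,
              ‖∑ n ∈ Ioc (M₀ : ℤ) (M₀ + N₀), (if IsCoprime n (k : ℤ) then A n else 0) *
                ψ (n : ZMod r)‖ ^ 2 := by
          intro r _
          congr 1
          refine sum_congr rfl fun ψ _ => ?_
          congr 2
          rw [sum_filter]
          refine sum_congr rfl fun n _ => ?_
          rw [ite_mul, zero_mul]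
        rw [sum_congr rfl h3]
        exact sum_le_sum_of_subset_of_nonneg (filter_subset _ _) fun r _ _ =>
          mul_nonneg (by positivity) (sum_nonneg fun _ _ => by positivity)
      refine h2.trans ?_
      refine (hLSB D₁ R₁ M₀ N₀ (fun n => if IsCoprime n (k : ℤ) then A n else 0) hR₁).trans ?_
      have h4 : ∑ n ∈ Ioc (M₀ : ℤ) (M₀ + N₀), ‖(if IsCoprime n (k : ℤ) then A n else 0)‖ ^ 2 ≤
          Sa := by
        refine le_trans (sum_le_sum fun n _ => ?_) (LSQ_restrict x K₃ K₄ b j lam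
          (Ioc (M₀ : ℤ) (M₀ + N₀)))
        split_ifs
        · exact le_rfl
        · rw [norm_zero, zero_pow (by norm_num)]
          positivity
      have h5 : (N₀ : ℝ) / R₁ + D₁ ≤ 12 * W := by
        have h6 : (N₀ : ℝ) / R₁ ≤ (12 * x ^ 2 / (K₃ * K₄ : ℕ) + 1) / R₁ :=
          div_le_div_of_nonneg_right hN₀ hR0.le
        have h7 : ((12 : ℝ) * x ^ 2 / (K₃ * K₄ : ℕ) + 1) / R₁ =
            12 * ((x : ℝ) ^ 2 / (K₃ * K₄ * R₁)) + 1 / R₁ := by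
          push_cast
          have a1 : (K₃ : ℝ) ≠ 0 := by
            have : 0 < K₃ := hK₃
            positivity
          have a2 : (K₄ : ℝ) ≠ 0 := by
            have : 0 < K₄ := hK₄
            positivity
          field_simp
        have h8 : 1 / (R₁ : ℝ) ≤ 1 := by
          rw [div_le_one hR0]
          exact hR1
        rw [h7] at h6
        rw [hW]
        linarith
      calc CB * ((N₀ : ℝ) / R₁ + D₁) *
            ∑ n ∈ Ioc (M₀ : ℤ) (M₀ + N₀), ‖(if IsCoprime n (k : ℤ) then A n else 0)‖ ^ 2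
          ≤ CB * (12 * W) * Sa := by
            refine mul_le_mul ?_ h4 (sum_nonneg fun _ _ => by positivity) (by positivity)
            exact mul_le_mul_of_nonneg_left h5 hCB.le
        _ = 12 * CB * W * Sa := by ring
    calc _ ≤ ∑ k ∈ Icc 1 D₁, 1 / (Nat.totient k : ℝ) * (12 * CB * W * Sa) :=
          sum_le_sum fun k hk' => mul_le_mul_of_nonneg_left (hk k hk') (by positivity)
      _ = (∑ k ∈ Icc 1 D₁, 1 / (Nat.totient k : ℝ)) * (12 * CB * W * Sa) := by rw [sum_mul]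
      _ ≤ (CP * (1 + Real.log D₁)) * (12 * CB * W * Sa) :=
          mul_le_mul_of_nonneg_right (hPHK D₁ hD₁) (by positivity)
      _ = _ := by ring
  -- one b
  have hb : ∀ b < K₃, ∑ j ∈ range (2 * (K₃ * K₄)),
      ∑ n ∈ Ioc 0 X, ‖LSQ_a x K₃ K₄ lam b j (n : ℤ)‖ ^ 2 ≤
      108 * (M ^ 4 * (x ^ 2 * (1 + Real.log x) ^ 3)) := by
    intro b _
    rw [sum_comm]
    have h1 : ∑ n ∈ Ioc 0 X, ∑ j ∈ range (2 * (K₃ * K₄)), ‖LSQ_a x K₃ K₄ lam b j (n : ℤ)‖ ^ 2 ≤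
        ∑ n ∈ Ioc 0 X, M ^ 4 * Pool.Agent.helper85.BVP.tau n ^ 2 := by
      refine sum_le_sum fun n hn => ?_
      rw [mem_Ioc] at hn
      exact LSQ_asq x K₃ K₄ b lam M hM n hn.1 _ g6
    rw [← mul_sum] at h1
    have h2 := Pool.Agent.helper85.BVP.sum_tau_sq_le X
    have h3 : 1 + Real.log (X : ℝ) ≤ 3 * (1 + Real.log x) := by
      rw [hX]
      push_cast
      rw [Real.log_mul (by norm_num) (by positivity), Real.log_pow]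
      have h4 : Real.log 4 ≤ 2 := by
        have h5 : Real.log 4 = 2 * Real.log 2 := by
          rw [show (4 : ℝ) = 2 ^ 2 by norm_num, Real.log_pow]; norm_num
        rw [h5]
        linarith [Real.log_two_lt_d9]
      push_cast
      linarith
    have h6 : 0 ≤ 1 + Real.log (X : ℝ) := by
      have := Real.log_natCast_nonneg X
      linarith
    calc ∑ n ∈ Ioc 0 X, ∑ j ∈ range (2 * (K₃ * K₄)), ‖LSQ_a x K₃ K₄ lam b j (n : ℤ)‖ ^ 2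
        ≤ M ^ 4 * (X * (1 + Real.log X) ^ 3) :=
          h1.trans (mul_le_mul_of_nonneg_left h2 (by positivity))
      _ ≤ M ^ 4 * (X * (3 * (1 + Real.log x)) ^ 3) := by
          refine mul_le_mul_of_nonneg_left ?_ (by positivity)
          refine mul_le_mul_of_nonneg_left ?_ (by positivity)
          exact pow_le_pow_left₀ h6 h3 3
      _ = 108 * (M ^ 4 * (x ^ 2 * (1 + Real.log x) ^ 3)) := by
          rw [hX]
          push_cast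
          ring
  -- exchange the sums
  have hL : ∑ D ∈ Icc 1 D₁, 1 / (Nat.totient D : ℝ) *
      ∑ χ : DirichletCharacter ℂ D with R₁ < χ.conductor,
      ∑ b ∈ range K₃, ∑ j ∈ range (2 * (K₃ * K₄)), ‖Hc x K₃ K₄ lam b j χ‖ ^ 2 =
      ∑ b ∈ range K₃, ∑ j ∈ range (2 * (K₃ * K₄)), ∑ D ∈ Icc 1 D₁, 1 / (Nat.totient D : ℝ) *
        ∑ χ : DirichletCharacter ℂ D with R₁ < χ.conductor, ‖Hc x K₃ K₄ lam b j χ‖ ^ 2 := by
    have h1 : ∀ b ∈ range K₃, ∑ j ∈ range (2 * (K₃ * K₄)), ∑ D ∈ Icc 1 D₁,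
        1 / (Nat.totient D : ℝ) *
        ∑ χ : DirichletCharacter ℂ D with R₁ < χ.conductor, ‖Hc x K₃ K₄ lam b j χ‖ ^ 2 =
        ∑ D ∈ Icc 1 D₁, 1 / (Nat.totient D : ℝ) *
        ∑ χ : DirichletCharacter ℂ D with R₁ < χ.conductor,
          ∑ j ∈ range (2 * (K₃ * K₄)), ‖Hc x K₃ K₄ lam b j χ‖ ^ 2 := by
      intro b _
      rw [sum_comm]
      refine sum_congr rfl fun D _ => ?_
      rw [← mul_sum, sum_comm]
    rw [sum_congr rfl h1, sum_comm]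
    refine sum_congr rfl fun D _ => ?_
    rw [← mul_sum, sum_comm]
  rw [hL]
  have hfin : ∀ b ∈ range K₃, ∑ j ∈ range (2 * (K₃ * K₄)), ∑ D ∈ Icc 1 D₁,
      1 / (Nat.totient D : ℝ) *
        ∑ χ : DirichletCharacter ℂ D with R₁ < χ.conductor, ‖Hc x K₃ K₄ lam b j χ‖ ^ 2 ≤
      CP * (1 + Real.log D₁) * (12 * CB * W) *
        (108 * (M ^ 4 * (x ^ 2 * (1 + Real.log x) ^ 3))) := by
    intro b hb'
    rw [mem_range] at hb'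
    calc _ ≤ ∑ j ∈ range (2 * (K₃ * K₄)), CP * (1 + Real.log D₁) * (12 * CB * W) *
          ∑ n ∈ Ioc 0 X, ‖LSQ_a x K₃ K₄ lam b j (n : ℤ)‖ ^ 2 :=
          sum_le_sum fun j hj => hbj b hb' j (mem_range.1 hj)
      _ = CP * (1 + Real.log D₁) * (12 * CB * W) * ∑ j ∈ range (2 * (K₃ * K₄)),
          ∑ n ∈ Ioc 0 X, ‖LSQ_a x K₃ K₄ lam b j (n : ℤ)‖ ^ 2 := by rw [mul_sum]
      _ ≤ _ := mul_le_mul_of_nonneg_left (hb b hb') (by positivity)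
  have h13 := Finset.sum_le_card_nsmul _ _ _ hfin
  rw [nsmul_eq_mul, card_range] at h13
  refine h13.trans (le_of_eq ?_)
  ring

end Pool.Agent.FJ
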